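import Pool.Agent.P.MP_535d4d_lc.Constr

/-!
A properly d.c.e. degree without a cover among the `n`-c.e. degrees.
-/

namespace Pool.Agent.P.MP_535d4d_lc

open Pool.Agent.Lib.Comp Filter

theorem main_bool : ∃ A : ℕ → Bool, NCE 2 A ∧ (∀ W, NCE 1 W → TLe A W → ¬ TLe W A) ∧
    ∀ n, 2 ≤ n → ∀ B, NCE n B → TLe A B → ¬ TLe B A →
      ∃ C, NCE n C ∧ TLe A C ∧ ¬ TLe C A ∧ TLe C B ∧ ¬ TLe B C := by
  classical
  obtain ⟨a, A, pa, a0, h2, hA, hP, hN⟩ := exists_A req pr_req
  have hA2 : NCE 2 A := NCE.of_primrec (fun y s => a s y) (by fun_prop) fun y => ⟨a0 y, hA y, h2 y⟩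
  refine ⟨A, hA2, hP, fun n hn B hB hAB hBA => ?_⟩
  have hex : ∃ m, ∃ X, NCE m X ∧ TLe X B ∧ ¬ TLe X A := ⟨n, B, hB, TLe.refl B, hBA⟩
  obtain ⟨X, hX, hXB, hXA⟩ := Nat.find_spec hex
  have hmin := fun m => Nat.find_min hex (m := m)
  have hmn : Nat.find hex ≤ n := Nat.find_min' hex ⟨B, hB, TLe.refl B, hBA⟩
  generalize Nat.find hex = m at hX hmin hmn
  obtain ⟨m, rfl⟩ : ∃ m', m = m' + 1 := by
    cases m with
    | zero => exact absurd (hX.zero_le A) hXA
    | succ m => exact ⟨m, rfl⟩
  obtain ⟨c, hc⟩ := hX.exists_slow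
  have hL : TLe (lach c X) A := by
    by_contra hne
    exact hmin m (by omega) ⟨_, lach_nce hc, (lach_le c X).trans hXB, hne⟩
  obtain ⟨w, hw⟩ := hL.exists_index
  have pe := pr_ent c w a pa
  have H : (dat c w a).Hyp A X :=
    { spec := dat_spec c w a
      h2 := h2
      hA := hA
      hf := fun x => (hc x).1
      E1 := by
        rintro t x ⟨-, s, -, h1, k, hk, hU⟩ htr
        rw [res_congr (D := a t) fun y hy => htr y (by omega)] at hU
        have := (hw _).2 _ _ _ hU
        simpa [lach, h1] using this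
      E2 := by
        intro x hx
        obtain ⟨s, hs⟩ := (hc x).1.exists
        obtain ⟨k, s', hU⟩ := (hw (Nat.pair x s)).1
        filter_upwards [eventually_gt_atTop x, eventually_ge_atTop s, eventually_ge_atTop k,
          eventually_ge_atTop s', eventually_forall_lt (T := k) fun y _ => hA y]
          with t q1 q2 q3 q4 q5
        refine ⟨q1, s, q2, hs.trans hx, k, q3, ?_⟩
        rw [res_congr q5, U_mono q4 hU]
        simp [lach, hx]
      N1 := by
        intro x h
        obtain ⟨s, -, h1, h3⟩ := hN _ (h.mono fun s hs => (req_pr c w a s x).2 hs) 0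
        exact ⟨s, (req_pr c w a s x).1 h1, h3⟩
      N2 := by
        intro e z m h
        obtain ⟨s, h0, h1, h3⟩ := hN _ (h.mono fun s hs => (req_ct c w a s e z).2 hs) m
        exact ⟨s, h0, (req_ct c w a s e z).1 h1, h3⟩
      pa := pa
      pcur := by simp only [dat]; fun_prop
      ppr := by simp only [dat]; fun_prop
      pct := by simp only [dat]; fun_prop }
  refine ⟨J A ((dat c w a).part A false), (hA2.mono hn).join
    (H.part_nce (fun x t => ((hc x).2 t).trans hmn) false), TLe.left _ _, ?_,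
    hAB.join (H.part_le hXB hAB false), ?_⟩
  · intro h
    apply H.not_le_join hXA true
    exact H.le_of_parts (((TLe.right _ _).trans h).trans (TLe.left _ _)) (TLe.right _ _)
  · intro h
    exact H.not_le_join hXA false (hXB.trans h)

end Pool.Agent.P.MP_535d4d_lc
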