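import Pool.Agent.P.MP_535d4d_lc.Defs
import Pool.Agent.P.MP_535d4d_lc.Main

namespace Pool.Agent.P.MP_535d4d_lc

open Pool.Agent.Lib.Comp Filter

theorem chg_eq_card (v : ℕ → Bool) (t : ℕ) :
    chg v t = ((Finset.range t).filter fun s => v s ≠ v (s + 1)).card := by
  induction t with
  | zero => rfl
  | succ t ih =>
    rw [chg, ih, Finset.range_add_one, Finset.filter_insert]
    by_cases h : v t = v (t + 1)
    · simp [h]
    · rw [if_neg h, if_pos h, Finset.card_insert_of_notMem (by simp)]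

theorem encard_le_iff (v : ℕ → Bool) (n : ℕ) :
    {s | v s ≠ v (s + 1)}.encard ≤ n ↔ ∀ t, chg v t ≤ n := by
  constructor
  · intro h t
    rw [chg_eq_card]
    have h1 : (((Finset.range t).filter fun s => v s ≠ v (s + 1) : Finset ℕ) : Set ℕ) ⊆
        {s | v s ≠ v (s + 1)} := by
      intro s hs
      simp only [Finset.coe_filter, Set.mem_ofPred_eq] at hs
      exact hs.2
    have h2 := (Set.encard_le_encard h1).trans h
    rw [Set.encard_coe_eq_coe_finsetCard] at h2
    exact_mod_cast h2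
  · intro h
    by_contra hlt
    push Not at hlt
    obtain ⟨F, hF, hcard⟩ := Set.exists_subset_encard_eq (Order.add_one_le_of_lt hlt)
    have hfin : F.Finite := Set.finite_of_encard_eq_coe (k := n + 1) (by exact_mod_cast hcard)
    obtain ⟨N, hN⟩ := hfin.bddAbove
    have h1 : F ⊆ (((Finset.range (N + 1)).filter fun s => v s ≠ v (s + 1) : Finset ℕ) : Set ℕ) := by
      intro s hs
      simp only [Finset.coe_filter, Finset.mem_range, Set.mem_ofPred_eq]
      exact ⟨Nat.lt_succ_of_le (hN hs), hF hs⟩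
    have h2 := Set.encard_le_encard h1
    rw [hcard, Set.encard_coe_eq_coe_finsetCard, ← chg_eq_card] at h2
    have h3 : n + 1 ≤ chg v (N + 1) := by exact_mod_cast h2
    have := h (N + 1)
    omega

theorem isNCE_iff (n : ℕ) (X : ℕ → Bool) : IsNCE n {x | X x = true} ↔ NCE n X := by
  refine exists_congr fun f => and_congr_right fun _ => forall_congr' fun x =>
    and_congr_right fun _ => and_congr ?_ (encard_le_iff _ _)
  rw [eventually_atTop]
  refine exists_congr fun s => forall_congr' fun t => forall_congr' fun _ => ?_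
  exact Bool.eq_iff_iff.symm

theorem deg_eq (X : ℕ → Bool) :
    deg {x | X x = true} = toAntisymmetrization TuringReducible (chi X) := by
  unfold deg
  congr 1
  funext x
  cases h : X x <;> simp [chi, h, Set.indicator]

theorem deg_le_iff (X Y : ℕ → Bool) : deg {x | X x = true} ≤ deg {x | Y x = true} ↔ TLe X Y := by
  rw [deg_eq, deg_eq]
  exact Iff.rfl

theorem exists_bool (A : Set ℕ) : ∃ X : ℕ → Bool, A = {x | X x = true} := by
  classical
  exact ⟨fun x => decide (x ∈ A), by ext x; simp⟩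

theorem main_deg : ∃ a : TuringDegree, a ∉ NCEDegrees 1 ∧ ∀ n, 2 ≤ n → a ∈ NCEDegrees n ∧
    ∀ b ∈ NCEDegrees n, a < b → ∃ c ∈ NCEDegrees n, a < c ∧ c < b := by
  obtain ⟨A, h1, h2, h3⟩ := main_bool
  refine ⟨deg {x | A x = true}, ?_, fun n hn => ⟨⟨_, (isNCE_iff n A).2 (h1.mono hn), rfl⟩, ?_⟩⟩
  · rintro ⟨W, hW, he⟩
    obtain ⟨W, rfl⟩ := exists_bool W
    exact h2 W ((isNCE_iff 1 W).1 hW) ((deg_le_iff _ _).1 he.ge) ((deg_le_iff _ _).1 he.le)
  · rintro b ⟨B, hB, rfl⟩ hlt
    obtain ⟨B, rfl⟩ := exists_bool B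
    rw [lt_iff_le_not_ge, deg_le_iff, deg_le_iff] at hlt
    obtain ⟨C, c1, c2, c3, c4, c5⟩ := h3 n hn B ((isNCE_iff n B).1 hB) hlt.1 hlt.2
    refine ⟨_, ⟨_, (isNCE_iff n C).2 c1, rfl⟩, ?_, ?_⟩
    · rw [lt_iff_le_not_ge, deg_le_iff, deg_le_iff]
      exact ⟨c2, c3⟩
    · rw [lt_iff_le_not_ge, deg_le_iff, deg_le_iff]
      exact ⟨c4, c5⟩

end Pool.Agent.P.MP_535d4d_lc
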