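import Pool.Agent.P.MP_535d4d_lc.Machine

/-!
A properly d.c.e. set that honours every infinitely repeated preservation request.
-/

namespace Pool.Agent.P.MP_535d4d_lc

open Pool.Agent.Lib.Comp Filter

/-- The history `[a 0 ↾ 0, …, a t ↾ t]`. -/
def hs (a : ℕ → ℕ → Bool) (t : ℕ) : List (List Bool) :=
  (List.range (t + 1)).map fun s => res (a s) s

theorem getD_hs (a : ℕ → ℕ → Bool) {s t : ℕ} (h : s ≤ t) : (hs a t).getD s [] = res (a s) s := by
  unfold hs
  rw [getD_map_range, if_pos (by omega)]

/-- The test of the diagonalisation strategy in phase `0`. -/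
def ptest (c Φ Ψ s : ℕ) (σ : List Bool) (x u : ℕ) : Bool :=
  eqb (U Φ s (res (fun v => sa c v s) u) x) (some false) &&
    (List.range u).all fun v => (List.range (s + 1)).any fun j =>
      eqb (U Ψ s (σ.take j) v) (some (sa c v s))

/-- The diagonalisation strategy. -/
def attP (c Φ Ψ s : ℕ) (σ : List Bool) (x φ : ℕ) (τ : List Bool) : Option (ℕ × List Bool) :=
  cond (eqb φ 0)
    (((List.range (s + 1)).find? fun u => ptest c Φ Ψ s σ x u).map
      fun u => (1, res (fun v => sa c v s) u))
    (cond (eqb φ 1 && !eqb (res (fun v => sa c v s) τ.length) τ) (some (2, τ)) none)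

/-- The attention function. -/
def att (r : ℕ → List (List Bool) → Bool) : Att := fun k s H x φ τ =>
  cond k.bodd
    (attP k.div2.unpair.1 k.div2.unpair.2.unpair.1 k.div2.unpair.2.unpair.2 s (H.getD s []) x φ τ)
    (cond (eqb φ 0 && (r k.div2.unpair.1 H && leb k.div2.unpair.2 s)) (some (2, [])) none)

theorem pr_att {r : ℕ → List (List Bool) → Bool}
    (hr : Primrec fun p : ℕ × List (List Bool) => r p.1 p.2) :
    Primrec fun p : ℕ × ℕ × List (List Bool) × ℕ × ℕ × List Bool =>
      att r p.1 p.2.1 p.2.2.1 p.2.2.2.1 p.2.2.2.2.1 p.2.2.2.2.2 := by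
  have h1 : Primrec fun p : ℕ × ℕ × List (List Bool) × ℕ × ℕ × List Bool =>
      r p.1.div2.unpair.1 p.2.2.1 :=
    hr.comp (g := fun p : ℕ × ℕ × List (List Bool) × ℕ × ℕ × List Bool =>
      (p.1.div2.unpair.1, p.2.2.1)) (by fun_prop)
  unfold att attP ptest
  fun_prop

theorem attP_zero {c Φ Ψ s σ x τ φ' τ'} (h : attP c Φ Ψ s σ x 0 τ = some (φ', τ')) :
    φ' = 1 ∧ ∃ u ≤ s, τ' = res (fun v => sa c v s) u ∧ ptest c Φ Ψ s σ x u = true := by
  simp only [attP, eqb, decide_true, cond_true, Option.map_eq_some_iff, Prod.mk.injEq] at h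
  obtain ⟨u, hu, rfl, rfl⟩ := h
  have h1 := List.mem_range.1 (List.mem_of_find?_eq_some hu)
  exact ⟨rfl, u, by omega, rfl, List.find?_some hu⟩

theorem attP_zero_none {c Φ Ψ s σ x τ} (h : attP c Φ Ψ s σ x 0 τ = none) :
    ∀ u ≤ s, ptest c Φ Ψ s σ x u = false := by
  simp only [attP, eqb, decide_true, cond_true, Option.map_eq_none_iff] at h
  intro u hu
  simpa using List.find?_eq_none.1 h u (List.mem_range.2 (by omega))

theorem attP_one {c Φ Ψ s σ x τ} : attP c Φ Ψ s σ x 1 τ =
    if res (fun v => sa c v s) τ.length = τ then none else some (2, τ) := by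
  by_cases h : res (fun v => sa c v s) τ.length = τ <;> simp [attP, eqb, h]

theorem attP_two {c Φ Ψ s σ x τ} : attP c Φ Ψ s σ x 2 τ = none := by
  simp [attP, eqb]

theorem att_inc (r : ℕ → List (List Bool) → Bool) :
    ∀ k s H x φ τ φ' τ', att r k s H x φ τ = some (φ', τ') → φ < φ' ∧ φ' ≤ 2 := by
  intro k s H x φ τ φ' τ' h
  unfold att at h
  cases hk : k.bodd with
  | true =>
    rw [hk, cond_true] at h
    by_cases h0 : φ = 0
    · subst h0
      have := (attP_zero h).1
      omega
    · by_cases h1 : φ = 1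
      · subst h1
        rw [attP_one] at h
        split_ifs at h
        obtain ⟨rfl, -⟩ := Prod.mk.inj (Option.some.inj h)
        omega
      · simp [attP, eqb, h0, h1] at h
  | false =>
    rw [hk, cond_false] at h
    by_cases h0 : φ = 0
    · subst h0
      cases h2 : (eqb 0 0 && (r k.div2.unpair.1 H && leb k.div2.unpair.2 s)) with
      | false => rw [h2] at h; simp at h
      | true =>
        rw [h2] at h
        obtain ⟨rfl, -⟩ := Prod.mk.inj (Option.some.inj h)
        omega
    · simp [eqb, h0] at h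

theorem chg_le_counter {c : ℕ → ℕ} (hc : Monotone c) (t : ℕ) :
    chg (fun s => eqb (c s) 1) t ≤ c t := by
  induction t with
  | zero => exact Nat.zero_le _
  | succ t ih =>
    have h1 : c t ≤ c (t + 1) := hc (Nat.le_succ t)
    rw [chg]
    split_ifs with h
    · omega
    · have : c t ≠ c (t + 1) := fun e => h (by rw [e])
      omega

theorem eq_of_eventually {v : ℕ → Bool} {b b' : Bool} (h : ∀ᶠ t in atTop, v t = b)
    (h' : ∀ᶠ t in atTop, v t = b') : b = b' := by
  obtain ⟨t, h1, h2⟩ := (h.and h').exists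
  rw [← h1, h2]

theorem exists_A (r : ℕ → List (List Bool) → Bool)
    (hr : Primrec fun p : ℕ × List (List Bool) => r p.1 p.2) :
    ∃ (a : ℕ → ℕ → Bool) (A : ℕ → Bool), (Primrec fun p : ℕ × ℕ => a p.1 p.2) ∧
      (∀ y, a 0 y = false) ∧ (∀ y t, chg (fun s => a s y) t ≤ 2) ∧
      (∀ y, ∀ᶠ s in atTop, a s y = A y) ∧
      (∀ W, NCE 1 W → TLe A W → ¬ TLe W A) ∧
      ∀ j, (∃ᶠ s in atTop, r j (hs a s) = true) →
        ∀ m, ∃ s, m ≤ s ∧ r j (hs a s) = true ∧ ∀ y < s, a s y = A y := by
  classical
  have hinc := att_inc r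
  set g := att r with hg
  let a : ℕ → ℕ → Bool := fun s y => eqb (mc g s y) 1
  have hchg : ∀ y t, chg (fun s => a s y) t ≤ 2 := fun y t =>
    (chg_le_counter (mc_mono hinc y) t).trans (mc_le_two hinc t y)
  choose A hA using fun y => exists_lim_of_chg_le (hchg y)
  have hh : ∀ t, hist (mc g) t = hs a t := fun t => rfl
  refine ⟨a, A, ?_, fun y => rfl, hchg, hA, ?_, ?_⟩
  · have := pr_mst (pr_att hr)
    simp only [a, mc]
    fun_prop
  · intro W hW hAW hWA
    obtain ⟨c, hc⟩ := hW.exists_slow
    obtain ⟨Φ, hΦ⟩ := hAW.exists_index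
    obtain ⟨Ψ, hΨ⟩ := hWA.exists_index
    obtain ⟨b, τ, r0, r1, r2⟩ := machine_run hinc (2 * Nat.pair c (Nat.pair Φ Ψ) + 1)
    have eG : ∀ t φ τ, g (2 * Nat.pair c (Nat.pair Φ Ψ) + 1) t (hist (mc g) t) b φ τ =
        attP c Φ Ψ t (res (a t) t) b φ τ := by
      intro t φ τ
      have e1 : (2 * Nat.pair c (Nat.pair Φ Ψ) + 1).bodd = true := by simp [Nat.bodd_mul]
      have e2 : (2 * Nat.pair c (Nat.pair Φ Ψ) + 1).div2 = Nat.pair c (Nat.pair Φ Ψ) := by
        simp [Nat.div2_val]
      rw [hg, att, e1, e2, hh, getD_hs a le_rfl]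
      simp
    simp only [eG] at r1 r2
    -- first action
    by_cases hex : ∃ t, b < t ∧ attP c Φ Ψ t (res (a t) t) b (mc g t b) (τ t) ≠ none
    · obtain ⟨hb0, hG0⟩ := Nat.find_spec hex
      have hmin := fun t => Nat.find_min hex (m := t)
      generalize Nat.find hex = s0 at hb0 hG0 hmin
      have c0 : mc g s0 b = 0 := by
        rw [← r0]
        refine (r1 b le_rfl (Or.inl rfl) s0 hb0 fun t h1 h2 => ?_).2 b le_rfl
        by_contra hne
        exact hmin t h2 ⟨h1, hne⟩
      obtain ⟨⟨φ', τ'⟩, hG0'⟩ := Option.ne_none_iff_exists'.1 hG0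
      obtain ⟨t1, t2⟩ := r2 s0 hb0 φ' τ' hG0'
      rw [c0] at hG0'
      obtain ⟨rfl, u, hu, hτ, hp⟩ := attP_zero hG0'
      simp only [ptest, Bool.and_eq_true, eqb_true, List.all_eq_true, List.mem_range,
        List.any_eq_true] at hp
      obtain ⟨p1, p2⟩ := hp
      have hlen : τ'.length = u := by rw [hτ, length_res]
      by_cases hex2 : ∃ t, s0 < t ∧ attP c Φ Ψ t (res (a t) t) b (mc g t b) (τ t) ≠ none
      · obtain ⟨hb1, hG1⟩ := Nat.find_spec hex2
        have hmin1 := fun t => Nat.find_min hex2 (m := t)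
        generalize Nat.find hex2 = s1 at hb1 hG1 hmin1
        obtain ⟨q1, q2⟩ := r1 s0 hb0.le (Or.inr hG0) s1 hb1 fun t h1 h2 => by
          by_contra hne
          exact hmin1 t h2 ⟨h1, hne⟩
        have c1 : mc g s1 b = 1 := by rw [q2 b hb0.le, t2, if_pos rfl]
        obtain ⟨⟨φ'', τ''⟩, hG1'⟩ := Option.ne_none_iff_exists'.1 hG1
        obtain ⟨-, t4⟩ := r2 s1 (by omega) φ'' τ'' hG1'
        rw [c1, q1, t1, attP_one, hlen] at hG1'
        split_ifs at hG1' with hne
        obtain ⟨rfl, -⟩ := Prod.mk.inj (Option.some.inj hG1')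
        have c2 : ∀ t, s1 < t → mc g t b = 2 := by
          intro t ht
          have h1 : mc g (s1 + 1) b ≤ mc g t b := mc_mono hinc b ht
          have h2 := mc_le_two hinc t b
          rw [t4, if_pos rfl] at h1
          omega
        have hAeq : ∀ y < s0, a s0 y = A y := by
          intro y hy
          refine eq_of_eventually ?_ (hA y)
          filter_upwards [eventually_gt_atTop s1] with t ht
          have h1 := (r1 s1 (by omega) (Or.inr hG1) t ht fun t' h1 _ => by
            rw [c2 t' h1, attP_two]).2 y (by omega)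
          simp only [a]
          rw [h1, t4]
          split_ifs with hyb
          · rw [hyb, c0]; rfl
          · rw [q2 y hy.le, t2, if_neg hyb]
        rw [hτ, res_eq_iff] at hne
        push Not at hne
        obtain ⟨v, hv, hne⟩ := hne
        obtain ⟨j, hj, hU⟩ := p2 v hv
        rw [take_res _ (by omega), res_congr fun y hy => hAeq y (by omega)] at hU
        have hWv := (hΨ v).2 _ _ _ hU
        obtain ⟨t, ht1, ht2⟩ := ((hc v).1.and (eventually_ge_atTop s1)).exists
        have l1 := chg_lt (v := sa c v) hb1.le (Ne.symm hne)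
        have l2 := chg_lt (v := sa c v) ht2 (by rw [ht1, ← hWv]; exact hne)
        have l3 := (hc v).2 t
        -- the approximation starts at `false`; two changes are impossible
        omega
      · push Not at hex2
        have q : ∀ t, s0 < t → τ t = τ' ∧ mc g t b = 1 := by
          intro t ht
          obtain ⟨q1, q2⟩ := r1 s0 hb0.le (Or.inr hG0) t ht fun t' h1 _ => hex2 t' h1
          exact ⟨by rw [q1, t1], by rw [q2 b hb0.le, t2, if_pos rfl]⟩
        have hAb : A b = true := by
          refine eq_of_eventually (hA b) ?_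
          filter_upwards [eventually_gt_atTop s0] with t ht
          simp only [a, (q t ht).2]
          rfl
        have hW : res W u = τ' := by
          obtain ⟨t, ht1, ht2⟩ := ((eventually_forall_lt (T := u) fun v _ => (hc v).1).and
            (eventually_gt_atTop s0)).exists
          have h1 := hex2 t ht2
          rw [(q t ht2).1, (q t ht2).2, attP_one, hlen] at h1
          split_ifs at h1 with h2
          rw [← h2]
          exact res_congr fun v hv => (ht1 v hv).symm
        rw [← hτ, ← hW] at p1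
        have := (hΦ b).2 _ _ _ p1
        rw [hAb] at this
        exact absurd this (by simp)
    · push Not at hex
      have c0 : ∀ t, b < t → mc g t b = 0 := by
        intro t ht
        rw [← r0]
        exact (r1 b le_rfl (Or.inl rfl) t ht fun t' h1 _ => hex t' h1).2 b le_rfl
      have hAb : A b = false := by
        refine eq_of_eventually (hA b) ?_
        filter_upwards [eventually_gt_atTop b] with t ht
        simp only [a, c0 t ht]
        rfl
      obtain ⟨u, s, hU⟩ := (hΦ b).1
      have ev1 : ∀ᶠ t in atTop, ∀ v < u, sa c v t = W v := eventually_forall_lt fun v _ => (hc v).1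
      have ev2 : ∀ᶠ t in atTop, ∀ v < u, ∃ j < t + 1,
          U Ψ t ((res (a t) t).take j) v = some (W v) := by
        apply eventually_forall_lt
        intro v _
        obtain ⟨j, s', hU'⟩ := (hΨ v).1
        filter_upwards [eventually_ge_atTop j, eventually_ge_atTop s',
          eventually_forall_lt (T := j) fun y _ => hA y] with t h1 h2 h3
        refine ⟨j, by omega, ?_⟩
        rw [take_res _ h1, res_congr h3]
        exact U_mono h2 hU'
      obtain ⟨t, ⟨⟨⟨e1, e2⟩, e3⟩, e4⟩, e5⟩ := ((((ev1.and ev2).and (eventually_gt_atTop b)).and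
        (eventually_ge_atTop u)).and (eventually_ge_atTop s)).exists
      have h1 := hex t e3
      rw [c0 t e3] at h1
      have h2 := attP_zero_none h1 u e4
      have h3 : ptest c Φ Ψ t (res (a t) t) b u = true := by
        simp only [ptest, Bool.and_eq_true, eqb_true, List.all_eq_true, List.mem_range,
          List.any_eq_true]
        refine ⟨?_, fun v hv => ?_⟩
        · rw [res_congr e1, U_mono e5 hU, hAb]
        · rw [e1 v hv]; exact e2 v hv
      rw [h3] at h2
      exact absurd h2 (by simp)
  · intro j hj m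
    obtain ⟨b, τ, r0, r1, r2⟩ := machine_run hinc (2 * Nat.pair j m)
    have eG : ∀ t φ τ, g (2 * Nat.pair j m) t (hist (mc g) t) b φ τ =
        if φ = 0 ∧ r j (hs a t) = true ∧ m ≤ t then some (2, []) else none := by
      intro t φ τ
      have e1 : (2 * Nat.pair j m).bodd = false := by simp [Nat.bodd_mul]
      have e2 : (2 * Nat.pair j m).div2 = Nat.pair j m := by simp [Nat.div2_val]
      rw [hg, att, e1, e2, hh]
      simp only [cond_false, Nat.unpair_pair]
      rw [Bool.cond_eq_ite]
      simp
    simp only [eG] at r1 r2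
    by_cases hex : ∃ t, b < t ∧ mc g t b = 0 ∧ r j (hs a t) = true ∧ m ≤ t
    · obtain ⟨s, h1, h2, h3, h4⟩ := hex
      refine ⟨s, h4, h3, fun y hy => ?_⟩
      obtain ⟨-, t2⟩ := r2 s h1 2 [] (if_pos ⟨h2, h3, h4⟩)
      have c2 : ∀ t, s < t → mc g t b = 2 := by
        intro t ht
        have h1 : mc g (s + 1) b ≤ mc g t b := mc_mono hinc b ht
        have h2 := mc_le_two hinc t b
        rw [t2, if_pos rfl] at h1
        omega
      refine eq_of_eventually ?_ (hA y)
      filter_upwards [eventually_gt_atTop s] with t ht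
      have h5 := (r1 s h1.le (Or.inr (by rw [if_pos ⟨h2, h3, h4⟩]; simp)) t ht fun t' h1 _ => by
        rw [c2 t' h1]; simp).2 y hy.le
      simp only [a]
      rw [h5, t2]
      split_ifs with hyb
      · rw [hyb, h2]; rfl
      · rfl
    · exfalso
      obtain ⟨t, h1, h2, h3⟩ := (hj.and_eventually ((eventually_gt_atTop b).and
        (eventually_ge_atTop m))).exists
      refine hex ⟨t, h2, ?_, h1, h3⟩
      rw [← r0]
      refine (r1 b le_rfl (Or.inl rfl) t h2 fun t' h4 _ => ?_).2 b le_rfl
      rw [if_neg]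
      intro h5
      exact hex ⟨t', h4, h5⟩

end Pool.Agent.P.MP_535d4d_lc
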