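import Pool.Agent.P.MP_535d4d_lc.Verify

/-!
The splitting construction as a primitive recursive table, uniformly in its parameters.
-/

namespace Pool.Agent.P.MP_535d4d_lc

open Pool.Agent.Lib.Comp Filter

/-- A table entry: current side, new promise, new certificate. -/
abbrev Ent := Option Bool × Option Bool × Option Bool
/-- A table: one row per stage. -/
abbrev Tab := List (List Ent)
/-- The history of the approximations to `A`. -/
abbrev Inp := List (List Bool)

def en (L : Tab) (s k : ℕ) : Ent := (L.getD s []).getD k (none, none, none)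

def ag (I : Inp) (s t : ℕ) : Bool := eqb ((I.getD t []).take s) (I.getD s [])

def eB (c w : ℕ) (I : Inp) (t x : ℕ) : Bool :=
  ltb x t && (List.range (t + 1)).any fun s => sa c x s && (List.range (t + 1)).any fun k =>
    eqb (U w t ((I.getD t []).take k) (Nat.pair x s)) (some false)

def visB (L : Tab) (I : Inp) (t x : ℕ) : Option ℕ :=
  (List.range t).find? fun s => (en L s x).2.1.isSome && ag I s t

def rsB (L : Tab) (e t x : ℕ) : Bool :=
  (List.range t).any fun s => ltb x s && (List.range s).any fun z =>
    (en L s (Nat.pair e z)).2.2.isSome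

def chooseB (L : Tab) (t x : ℕ) : Bool :=
  ((List.range t).find? fun e => rsB L e t x).elim false fun e => !e.bodd

def prF (c w : ℕ) (L : Tab) (I : Inp) (t x : ℕ) : Option Bool :=
  cond (sa c x t && (!(visB L I t x).isSome && eB c w I t x))
    (some ((en L (t - 1) x).1.getD (chooseB L t x))) none

def curF (c w : ℕ) (L : Tab) (I : Inp) (t x : ℕ) : Option Bool :=
  cond (sa c x t) ((visB L I t x).elim
    (cond (eB c w I t x) (prF c w L I t x) (en L (t - 1) x).1) fun s => (en L s x).2.1) none

def injB (L : Tab) (e t : ℕ) : Bool :=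
  (List.range t).any fun x => (en L t x).2.1.isSome && (List.range e).any fun e0 => rsB L e0 t x

def caB (L : Tab) (I : Inp) (e z t s : ℕ) : Bool :=
  (en L s (Nat.pair e z)).2.2.isSome && (ag I s t &&
    (List.range t).all fun t' => !(ltb s t' && injB L e t'))

def consB (c w : ℕ) (L : Tab) (I : Inp) (i : Bool) (t x : ℕ) : Bool :=
  eqb (eqb (curF c w L I t x) (some i)) (eqb (prF c w L I t x) (some i) ||
    (List.range t).any fun s => eqb (en L s x).2.1 (some i) && ag I s t)

def cond1B (c : ℕ) (L : Tab) (I : Inp) (t e z : ℕ) : Bool :=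
  (List.range z).all fun z' => ((List.range t).any fun s => caB L I e z' t s) &&
    (List.range t).all fun s => !caB L I e z' t s ||
      eqb (en L s (Nat.pair e z')).2.2 (some (sa c z' t))

def cond2B (L : Tab) (I : Inp) (t e z : ℕ) : Bool :=
  !(List.range t).any fun s => caB L I e z t s

def orc (c w : ℕ) (L : Tab) (I : Inp) (i : Bool) (t u : ℕ) : List Bool :=
  res (J (fun y => (I.getD t []).getD y false) fun x => eqb (curF c w L I t x) (some i)) u

def ctF (c w : ℕ) (L : Tab) (I : Inp) (t e z : ℕ) : Option Bool :=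
  cond (cond1B c L I t e z && cond2B L I t e z)
    ((List.range (t + 1)).findSome? fun u =>
      cond ((List.range u).all fun x => consB c w L I e.bodd t x)
        (U e.div2 t (orc c w L I e.bodd t u) z) none) none

def row (c w : ℕ) (L : Tab) (I : Inp) (t : ℕ) : List Ent :=
  (List.range t).map fun k =>
    (curF c w L I t k, prF c w L I t k, ctF c w L I t k.unpair.1 k.unpair.2)

def tab (c w : ℕ) (I : Inp) (t : ℕ) : Tab :=
  Nat.rec (motive := fun _ => Tab) [] (fun t L => L ++ [row c w L (I.take (t + 1)) t]) t

section prim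

variable {α : Type} [Primcodable α] {c w s t x k e z u : α → ℕ} {L : α → Tab} {I : α → Inp}
  {i : α → Bool}

@[fun_prop] theorem pr_en (hL : Primrec L) (hs : Primrec s) (hk : Primrec k) :
    Primrec fun a => en (L a) (s a) (k a) := by unfold en; fun_prop

@[fun_prop] theorem pr_ag (hI : Primrec I) (hs : Primrec s) (ht : Primrec t) :
    Primrec fun a => ag (I a) (s a) (t a) := by unfold ag; fun_prop

@[fun_prop] theorem pr_eB (hc : Primrec c) (hw : Primrec w) (hI : Primrec I) (ht : Primrec t)
    (hx : Primrec x) : Primrec fun a => eB (c a) (w a) (I a) (t a) (x a) := by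
  unfold eB; fun_prop

@[fun_prop] theorem pr_visB (hL : Primrec L) (hI : Primrec I) (ht : Primrec t)
    (hx : Primrec x) : Primrec fun a => visB (L a) (I a) (t a) (x a) := by
  unfold visB; fun_prop

@[fun_prop] theorem pr_rsB (hL : Primrec L) (he : Primrec e) (ht : Primrec t)
    (hx : Primrec x) : Primrec fun a => rsB (L a) (e a) (t a) (x a) := by
  unfold rsB; fun_prop

@[fun_prop] theorem pr_chooseB (hL : Primrec L) (ht : Primrec t)
    (hx : Primrec x) : Primrec fun a => chooseB (L a) (t a) (x a) := by
  unfold chooseB; fun_prop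

@[fun_prop] theorem pr_prF (hc : Primrec c) (hw : Primrec w) (hL : Primrec L) (hI : Primrec I)
    (ht : Primrec t) (hx : Primrec x) :
    Primrec fun a => prF (c a) (w a) (L a) (I a) (t a) (x a) := by
  unfold prF; fun_prop

@[fun_prop] theorem pr_curF (hc : Primrec c) (hw : Primrec w) (hL : Primrec L) (hI : Primrec I)
    (ht : Primrec t) (hx : Primrec x) :
    Primrec fun a => curF (c a) (w a) (L a) (I a) (t a) (x a) := by
  unfold curF; fun_prop

@[fun_prop] theorem pr_injB (hL : Primrec L) (he : Primrec e) (ht : Primrec t) :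
    Primrec fun a => injB (L a) (e a) (t a) := by
  unfold injB; fun_prop

@[fun_prop] theorem pr_caB (hL : Primrec L) (hI : Primrec I) (he : Primrec e) (hz : Primrec z)
    (ht : Primrec t) (hs : Primrec s) :
    Primrec fun a => caB (L a) (I a) (e a) (z a) (t a) (s a) := by
  unfold caB; fun_prop

@[fun_prop] theorem pr_consB (hc : Primrec c) (hw : Primrec w) (hL : Primrec L) (hI : Primrec I)
    (hi : Primrec i) (ht : Primrec t) (hx : Primrec x) :
    Primrec fun a => consB (c a) (w a) (L a) (I a) (i a) (t a) (x a) := by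
  unfold consB; fun_prop

@[fun_prop] theorem pr_cond1B (hc : Primrec c) (hL : Primrec L) (hI : Primrec I)
    (ht : Primrec t) (he : Primrec e) (hz : Primrec z) :
    Primrec fun a => cond1B (c a) (L a) (I a) (t a) (e a) (z a) := by
  unfold cond1B; fun_prop

@[fun_prop] theorem pr_cond2B (hL : Primrec L) (hI : Primrec I)
    (ht : Primrec t) (he : Primrec e) (hz : Primrec z) :
    Primrec fun a => cond2B (L a) (I a) (t a) (e a) (z a) := by
  unfold cond2B; fun_prop

@[fun_prop] theorem pr_orc (hc : Primrec c) (hw : Primrec w) (hL : Primrec L) (hI : Primrec I)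
    (hi : Primrec i) (ht : Primrec t) (hu : Primrec u) :
    Primrec fun a => orc (c a) (w a) (L a) (I a) (i a) (t a) (u a) := by
  unfold orc J; fun_prop

@[fun_prop] theorem pr_ctF (hc : Primrec c) (hw : Primrec w) (hL : Primrec L) (hI : Primrec I)
    (ht : Primrec t) (he : Primrec e) (hz : Primrec z) :
    Primrec fun a => ctF (c a) (w a) (L a) (I a) (t a) (e a) (z a) := by
  unfold ctF; fun_prop

@[fun_prop] theorem pr_row (hc : Primrec c) (hw : Primrec w) (hL : Primrec L) (hI : Primrec I)
    (ht : Primrec t) : Primrec fun a => row (c a) (w a) (L a) (I a) (t a) := by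
  unfold row; fun_prop

@[fun_prop] theorem pr_tab (hc : Primrec c) (hw : Primrec w) (hI : Primrec I)
    (ht : Primrec t) : Primrec fun a => tab (c a) (w a) (I a) (t a) := by
  unfold tab; fun_prop

end prim

/-- The requests to the construction of `A`. -/
def req (j : ℕ) (H : Inp) : Bool :=
  cond j.unpair.2.unpair.2.bodd
    (en (tab j.unpair.1 j.unpair.2.unpair.1 H H.length) (H.length - 1)
      j.unpair.2.unpair.2.div2).2.1.isSome
    (en (tab j.unpair.1 j.unpair.2.unpair.1 H H.length) (H.length - 1)
      j.unpair.2.unpair.2.div2).2.2.isSome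

theorem pr_req : Primrec fun p : ℕ × Inp => req p.1 p.2 := by
  unfold req; fun_prop

section spec

variable (c w : ℕ) (a : ℕ → ℕ → Bool)

/-- The table of the stages before `t`. -/
def tb (t : ℕ) : Tab := tab c w (hs a t) t

theorem take_hs {s t : ℕ} (h : s ≤ t) : (hs a t).take (s + 1) = hs a s := by
  unfold hs
  rw [← List.map_take, List.take_range, min_eq_left (by omega)]

theorem tab_hs {T : ℕ} : ∀ t, t ≤ T + 1 → tab c w (hs a T) t = tb c w a t := by
  have key : ∀ T T' t, t ≤ T + 1 → t ≤ T' + 1 → tab c w (hs a T) t = tab c w (hs a T') t := by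
    intro T T' t
    induction t with
    | zero => intro _ _; rfl
    | succ t ih =>
      intro h1 h2
      change tab c w (hs a T) t ++ [row c w (tab c w (hs a T) t) ((hs a T).take (t + 1)) t] =
        tab c w (hs a T') t ++ [row c w (tab c w (hs a T') t) ((hs a T').take (t + 1)) t]
      rw [ih (by omega) (by omega), take_hs a (by omega : t ≤ T), take_hs a (by omega : t ≤ T')]
  intro t ht
  exact key T t t ht (by omega)

theorem tb_succ (t : ℕ) :
    tb c w a (t + 1) = tb c w a t ++ [row c w (tb c w a t) (hs a t) t] := by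
  change tab c w (hs a (t + 1)) t ++ [row c w (tab c w (hs a (t + 1)) t)
    ((hs a (t + 1)).take (t + 1)) t] = _
  rw [tab_hs c w a t (by omega), take_hs a (by omega : t ≤ t + 1)]

theorem length_tb (t : ℕ) : (tb c w a t).length = t := by
  induction t with
  | zero => rfl
  | succ t ih => rw [tb_succ, List.length_append, ih]; rfl

/-- The entry of stage `t`. -/
def ent (t k : ℕ) : Ent := en (tb c w a (t + 1)) t k

theorem en_tb {s t : ℕ} (h : s < t) (k : ℕ) : en (tb c w a t) s k = ent c w a s k := by
  induction t, h using Nat.le_induction with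
  | base => rfl
  | succ t h ih =>
    rw [← ih]
    unfold en
    rw [tb_succ, List.getD_append _ _ _ _ (by rw [length_tb]; exact h)]

theorem ent_eq (t k : ℕ) : ent c w a t k = if k < t then
    (curF c w (tb c w a t) (hs a t) t k, prF c w (tb c w a t) (hs a t) t k,
      ctF c w (tb c w a t) (hs a t) t k.unpair.1 k.unpair.2) else (none, none, none) := by
  unfold ent en
  rw [tb_succ, List.getD_append_right _ _ _ _ (by rw [length_tb]), length_tb, Nat.sub_self]
  simp only [List.getD_cons_zero]
  unfold row
  rw [getD_map_range]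

/-- The data of the construction. -/
def dat : Data where
  a := a
  f := sa c
  E := fun t x => x < t ∧ ∃ s ≤ t, sa c x s = true ∧
    ∃ k ≤ t, U w t (res (a t) k) (Nat.pair x s) = some false
  cur := fun t x => (ent c w a t x).1
  pr := fun t x => (ent c w a t x).2.1
  ct := fun t e z => (ent c w a t (Nat.pair e z)).2.2

theorem ag_iff {s t T : ℕ} (h1 : s ≤ t) (h2 : t ≤ T) :
    ag (hs a T) s t = true ↔ (dat c w a).Ag s t := by
  unfold ag
  rw [eqb_true, getD_hs a h2, getD_hs a (h1.trans h2), take_res _ h1, res_eq_iff]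
  rfl

theorem eB_iff (t x : ℕ) : eB c w (hs a t) t x = true ↔ (dat c w a).E t x := by
  simp only [eB, Bool.and_eq_true, ltb_true, List.any_eq_true, List.mem_range, eqb_true,
    getD_hs a le_rfl, dat, Nat.lt_succ_iff]
  refine and_congr_right fun _ => exists_congr fun s => and_congr_right fun _ =>
    and_congr_right fun _ => exists_congr fun k => and_congr_right fun hk => ?_
  rw [take_res _ hk]

theorem pr_lt {t x : ℕ} (h : (dat c w a).pr t x ≠ none) : x < t := by
  by_contra hne
  apply h
  simp only [dat]
  rw [ent_eq, if_neg hne]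

theorem ct_lt {t e z : ℕ} (h : (dat c w a).ct t e z ≠ none) : Nat.pair e z < t := by
  by_contra hne
  apply h
  simp only [dat]
  rw [ent_eq, if_neg hne]

theorem cur_eq {t x : ℕ} (h : x < t) :
    (dat c w a).cur t x = curF c w (tb c w a t) (hs a t) t x := by
  simp only [dat]
  rw [ent_eq, if_pos h]

theorem pr_eq {t x : ℕ} (h : x < t) :
    (dat c w a).pr t x = prF c w (tb c w a t) (hs a t) t x := by
  simp only [dat]
  rw [ent_eq, if_pos h]

theorem ct_eq {t e z : ℕ} (h : Nat.pair e z < t) :
    (dat c w a).ct t e z = ctF c w (tb c w a t) (hs a t) t e z := by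
  simp only [dat]
  rw [ent_eq, if_pos h, Nat.unpair_pair]

theorem cur_ge {t x : ℕ} (h : t ≤ x) : (dat c w a).cur t x = none := by
  simp only [dat]
  rw [ent_eq, if_neg (by omega)]

theorem en_pr {s t : ℕ} (h : s < t) (x : ℕ) :
    (en (tb c w a t) s x).2.1 = (dat c w a).pr s x := by rw [en_tb c w a h]; rfl

theorem en_cur {s t : ℕ} (h : s < t) (x : ℕ) :
    (en (tb c w a t) s x).1 = (dat c w a).cur s x := by rw [en_tb c w a h]; rfl

theorem en_ct {s t : ℕ} (h : s < t) (e z : ℕ) :
    (en (tb c w a t) s (Nat.pair e z)).2.2 = (dat c w a).ct s e z := by rw [en_tb c w a h]; rfl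

theorem visB_some {t x s : ℕ} (h : visB (tb c w a t) (hs a t) t x = some s) :
    s < t ∧ (dat c w a).pr s x ≠ none ∧ (dat c w a).Ag s t := by
  have h1 := List.mem_range.1 (List.mem_of_find?_eq_some h)
  have h2 := List.find?_some h
  rw [Bool.and_eq_true, en_pr c w a h1, ag_iff c w a h1.le le_rfl] at h2
  exact ⟨h1, Option.isSome_iff_ne_none.1 h2.1, h2.2⟩

theorem visB_none {t x : ℕ} :
    visB (tb c w a t) (hs a t) t x = none ↔ ¬ (dat c w a).App t x := by
  constructor
  · rintro h ⟨s, h1, h2, h3⟩
    apply List.find?_eq_none.1 h s (List.mem_range.2 h1)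
    rw [Bool.and_eq_true, en_pr c w a h1, ag_iff c w a h1.le le_rfl]
    exact ⟨Option.isSome_iff_ne_none.2 h2, h3⟩
  · intro h
    by_contra hne
    obtain ⟨s, hs⟩ := Option.ne_none_iff_exists'.1 hne
    exact h ⟨s, visB_some c w a hs⟩

theorem rsB_iff {t T : ℕ} (h : t ≤ T) (e x : ℕ) :
    rsB (tb c w a T) e t x = true ↔ (dat c w a).RS e t x := by
  simp only [rsB, List.any_eq_true, List.mem_range, Bool.and_eq_true, ltb_true, Data.RS]
  refine exists_congr fun s => and_congr_right fun hs => and_congr_right fun _ =>
    exists_congr fun z => ?_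
  rw [en_ct c w a (by omega), Option.isSome_iff_ne_none]
  refine ⟨fun h => h.2, fun h => ⟨?_, h⟩⟩
  have := ct_lt c w a h
  have := Nat.right_le_pair e z
  omega

theorem injB_iff {t T : ℕ} (h : t < T) (e : ℕ) :
    injB (tb c w a T) e t = true ↔ (dat c w a).Inj e t := by
  simp only [injB, List.any_eq_true, List.mem_range, Bool.and_eq_true, Data.Inj,
    rsB_iff c w a h.le, en_pr c w a h, Option.isSome_iff_ne_none]
  exact exists_congr fun x => ⟨fun h => h.2, fun h => ⟨pr_lt c w a h.1, h⟩⟩

theorem caB_iff {s t : ℕ} (h : s < t) (e z : ℕ) :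
    caB (tb c w a t) (hs a t) e z t s = true ↔ (dat c w a).CA e z t s := by
  simp only [caB, Bool.and_eq_true, en_ct c w a h, Option.isSome_iff_ne_none,
    ag_iff c w a h.le le_rfl, List.all_eq_true, List.mem_range, Data.CA, h, true_and]
  refine and_congr_right fun _ => and_congr_right fun _ => forall_congr' fun t' => ?_
  constructor
  · intro h1 h2 h3 h4
    have := h1 h3
    rw [ltb_true.2 h2, (injB_iff c w a h3 e).2 h4] at this
    exact absurd this (by simp)
  · intro h1 h3
    by_cases h2 : s < t'
    · have : injB (tb c w a t) e t' = false := by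
        rw [← Bool.not_eq_true, injB_iff c w a h3]; exact h1 h2 h3
      simp [this]
    · simp [ltb_false.2 (not_lt.1 h2)]

theorem any_caB (t e z : ℕ) :
    ((List.range t).any fun s => caB (tb c w a t) (hs a t) e z t s) = true ↔
      ∃ s, (dat c w a).CA e z t s := by
  simp only [List.any_eq_true, List.mem_range]
  exact exists_congr fun s => ⟨fun h => (caB_iff c w a h.1 e z).1 h.2,
    fun h => ⟨h.1, (caB_iff c w a h.1 e z).2 h⟩⟩

theorem cond1B_iff (t e z : ℕ) :
    cond1B c (tb c w a t) (hs a t) t e z = true ↔ (dat c w a).Cond1 t e z := by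
  simp only [cond1B, List.all_eq_true, List.mem_range, Bool.and_eq_true, any_caB, Data.Cond1]
  refine forall_congr' fun z' => forall_congr' fun _ => and_congr_right fun _ =>
    forall_congr' fun s => ?_
  constructor
  · intro h1 h2
    have := h1 h2.1
    rw [(caB_iff c w a h2.1 e z').2 h2, en_ct c w a h2.1] at this
    change _ = some (sa c z' t)
    simpa using this
  · intro h1 h2
    by_cases h3 : (dat c w a).CA e z' t s
    · rw [en_ct c w a h2, h1 h3]
      simp [dat]
    · have : caB (tb c w a t) (hs a t) e z' t s = false := by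
        rw [← Bool.not_eq_true, caB_iff c w a h2]; exact h3
      simp [this]

theorem cond2B_iff (t e z : ℕ) :
    cond2B (tb c w a t) (hs a t) t e z = true ↔ (dat c w a).Cond2 t e z := by
  rw [cond2B, Bool.not_eq_true', ← Bool.not_eq_true, any_caB]
  rfl

theorem consB_iff {t x : ℕ} (h : x < t) (i : Bool) :
    consB c w (tb c w a t) (hs a t) i t x = true ↔ (dat c w a).Cons i t x := by
  unfold consB Data.Cons
  rw [eqb_true, Bool.eq_iff_iff, eqb_true, ← cur_eq c w a h, ← pr_eq c w a h]
  refine iff_congr Iff.rfl ?_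
  simp only [Bool.or_eq_true, eqb_true, List.any_eq_true, List.mem_range, Bool.and_eq_true]
  constructor
  · rintro (h1 | ⟨s, h1, h2, h3⟩)
    · exact ⟨t, le_rfl, h1, Data.Ag.refl t⟩
    · exact ⟨s, h1.le, by rw [← en_pr c w a h1, h2], (ag_iff c w a h1.le le_rfl).1 h3⟩
  · rintro ⟨s, h1, h2, h3⟩
    rcases h1.lt_or_eq with h4 | rfl
    · exact Or.inr ⟨s, h4, by rw [en_pr c w a h4, h2], (ag_iff c w a h4.le le_rfl).2 h3⟩
    · exact Or.inl h2

theorem orc_eq {t u : ℕ} (h : u ≤ t) (i : Bool) :
    orc c w (tb c w a t) (hs a t) i t u =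
      res (J ((dat c w a).a t) fun x => eqb ((dat c w a).cur t x) (some i)) u := by
  unfold orc
  apply res_congr
  apply J_congr
  · intro y hy
    rw [getD_hs a le_rfl, getD_res _ (by omega)]
    rfl
  · intro x hx
    rw [cur_eq c w a (by omega)]

theorem dat_spec : (dat c w a).Spec where
  f0 x := rfl
  off t x h := by
    by_cases hx : x < t
    · have h' : sa c x t = false := h
      rw [cur_eq c w a hx, pr_eq c w a hx]
      simp [curF, prF, h']
    · refine ⟨cur_ge c w a (by omega), ?_⟩
      by_contra hne
      exact hx (pr_lt c w a hne)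
  vis t x h hA := by
    have h' : sa c x t = true := h
    have hx : x < t := by
      obtain ⟨s, h1, h2, -⟩ := hA
      exact (pr_lt c w a h2).trans h1
    obtain ⟨s, hs⟩ := Option.ne_none_iff_exists'.1 (fun e => (visB_none c w a).1 e hA)
    obtain ⟨h1, h2, h3⟩ := visB_some c w a hs
    refine ⟨s, h1, h2, h3, ?_, ?_⟩
    · rw [cur_eq c w a hx, curF, h', hs, cond_true, Option.elim_some, en_pr c w a h1]
    · rw [pr_eq c w a hx, prF, hs]
      simp
  new t x h hA hE := by
    have h' : sa c x (t + 1) = true := h
    have hx : x < t + 1 := hE.1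
    have hv := (visB_none c w a).2 hA
    have he := (eB_iff c w a _ _).2 hE
    have hp : (dat c w a).pr (t + 1) x =
        some (((dat c w a).cur t x).getD (chooseB (tb c w a (t + 1)) (t + 1) x)) := by
      rw [pr_eq c w a hx, prF, h', hv, he, Nat.add_sub_cancel, en_cur c w a (Nat.lt_succ_self t)]
      rfl
    refine ⟨_, hp, ?_, ?_, ?_⟩
    · rw [← hp, cur_eq c w a hx, curF, h', hv, he, pr_eq c w a hx]
      rfl
    · intro j hj
      rw [hj]; rfl
    · intro hc e he1 he2
      rw [hc, Option.getD_none, chooseB]
      have : (List.range (t + 1)).find? (fun e => rsB (tb c w a (t + 1)) e (t + 1) x) = some e := by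
        rw [List.find?_range_eq_some]
        refine ⟨(rsB_iff c w a le_rfl e x).2 he1, ?_, fun j hj => ?_⟩
        · obtain ⟨s, h1, -, z, h2⟩ := he1
          have := ct_lt c w a h2
          have := Nat.left_le_pair e z
          rw [List.mem_range]
          omega
        · rw [Bool.not_eq_true', ← Bool.not_eq_true, rsB_iff c w a le_rfl]
          exact he2 j hj
      rw [this]
      rfl
  stay t x h hA hE := by
    have h' : sa c x (t + 1) = true := h
    by_cases hx : x < t + 1
    · have hv := (visB_none c w a).2 hA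
      have he : eB c w (hs a (t + 1)) (t + 1) x = false := by
        rw [← Bool.not_eq_true, eB_iff]; exact hE
      constructor
      · rw [pr_eq c w a hx, prF, he]
        simp
      · rw [cur_eq c w a hx, curF, h', hv, he, Nat.add_sub_cancel,
          en_cur c w a (Nat.lt_succ_self t)]
        rfl
    · refine ⟨?_, by rw [cur_ge c w a (by omega), cur_ge c w a (by omega)]⟩
      by_contra hne
      exact hx (pr_lt c w a hne)
  ct_some t e z y h := by
    have hlt := ct_lt c w a (t := t) (e := e) (z := z) (by rw [h]; simp)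
    have := Nat.right_le_pair e z
    rw [ct_eq c w a hlt, ctF] at h
    cases hc : (cond1B c (tb c w a t) (hs a t) t e z && cond2B (tb c w a t) (hs a t) t e z) with
    | false => rw [hc] at h; simp at h
    | true =>
      rw [hc, cond_true] at h
      rw [Bool.and_eq_true, cond1B_iff, cond2B_iff] at hc
      obtain ⟨u, hu, h⟩ := List.exists_of_findSome?_eq_some h
      have hu' : u ≤ t := by simpa [Nat.lt_succ_iff] using hu
      refine ⟨by omega, hc.1, hc.2, u, hu', ?_⟩
      cases hall : (List.range u).all fun x => consB c w (tb c w a t) (hs a t) e.bodd t x with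
      | false => rw [hall] at h; simp at h
      | true =>
        rw [hall, cond_true, orc_eq c w a hu'] at h
        refine ⟨fun x hx => ?_, h⟩
        rw [← consB_iff c w a (by omega)]
        exact List.all_eq_true.1 hall x (List.mem_range.2 hx)
  ct_ne t e z hlt h1 h2 h3 := by
    obtain ⟨u, hu, h3, h4⟩ := h3
    rw [ct_eq c w a hlt, ctF, (cond1B_iff c w a t e z).2 h1, (cond2B_iff c w a t e z).2 h2,
      Bool.and_self, cond_true, ← Option.isSome_iff_ne_none, List.findSome?_isSome_iff]
    refine ⟨u, by simpa [Nat.lt_succ_iff] using hu, ?_⟩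
    have hall : ((List.range u).all fun x => consB c w (tb c w a t) (hs a t) e.bodd t x) = true := by
      rw [List.all_eq_true]
      intro x hx
      have := List.mem_range.1 hx
      rw [consB_iff c w a (by omega)]
      exact h3 x this
    rw [hall, cond_true, orc_eq c w a hu]
    exact Option.isSome_iff_ne_none.2 h4

theorem req_pr (s x : ℕ) : req (Nat.pair c (Nat.pair w (2 * x + 1))) (hs a s) = true ↔
    (dat c w a).pr s x ≠ none := by
  have e1 : (2 * x + 1).bodd = true := by simp [Nat.bodd_mul]
  have e2 : (2 * x + 1).div2 = x := by simp [Nat.div2_val]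
  have e3 : (hs a s).length = s + 1 := by simp [hs]
  simp only [req, Nat.unpair_pair, e1, e2, e3, cond_true, Nat.add_sub_cancel]
  rw [tab_hs c w a _ le_rfl, en_pr c w a (Nat.lt_succ_self s), Option.isSome_iff_ne_none]

theorem req_ct (s e z : ℕ) :
    req (Nat.pair c (Nat.pair w (2 * Nat.pair e z))) (hs a s) = true ↔
    (dat c w a).ct s e z ≠ none := by
  have e1 : (2 * Nat.pair e z).bodd = false := by simp [Nat.bodd_mul]
  have e2 : (2 * Nat.pair e z).div2 = Nat.pair e z := by simp [Nat.div2_val]
  have e3 : (hs a s).length = s + 1 := by simp [hs]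
  simp only [req, Nat.unpair_pair, e1, e2, e3, cond_false, Nat.add_sub_cancel]
  rw [tab_hs c w a _ le_rfl, en_ct c w a (Nat.lt_succ_self s), Option.isSome_iff_ne_none]

theorem pr_ent (ha : Primrec fun p : ℕ × ℕ => a p.1 p.2) :
    Primrec fun p : ℕ × ℕ => ent c w a p.1 p.2 := by
  unfold ent tb hs
  fun_prop

end spec

end Pool.Agent.P.MP_535d4d_lc
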