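import Mathlib

/-!
The `n`-c.e. sets and the `n`-c.e. Turing degrees (definitions as in the problem file).
-/

namespace Pool.Agent.P.MP_535d4d_lc

/-- `A` is `n`-c.e.: it has a computable approximation `f x s` starting at `0`, converging to
`A(x)` and changing at most `n` times. -/
def IsNCE (n : ℕ) (A : Set ℕ) : Prop :=
  ∃ f : ℕ → ℕ → Bool, Computable₂ f ∧ ∀ x,
    f x 0 = false ∧ (∃ s₀, ∀ s, s₀ ≤ s → (f x s = true ↔ x ∈ A)) ∧
      {s | f x s ≠ f x (s + 1)}.encard ≤ n

/-- The Turing degree of (the characteristic function of) a set. -/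
noncomputable def deg (A : Set ℕ) : TuringDegree :=
  toAntisymmetrization TuringReducible (fun x => Part.some (A.indicator (fun _ => 1) x))

/-- The `n`-c.e. degrees. -/
def NCEDegrees (n : ℕ) : Set TuringDegree :=
  {a | ∃ A : Set ℕ, IsNCE n A ∧ deg A = a}

end Pool.Agent.P.MP_535d4d_lc
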