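import Pool.Agent.Lib.Comp.Approx

/-!
An abstract finite injury machine producing a counter `c s y ≤ 2`; the set built is
`{y | lim c s y = 1}`.
-/

namespace Pool.Agent.P.MP_535d4d_lc

open Pool.Agent.Lib.Comp Filter

/-- The type of attention functions: requirement, stage, history, witness, phase, data. -/
abbrev Att := ℕ → ℕ → List (List Bool) → ℕ → ℕ → List Bool → Option (ℕ × List Bool)

/-- The state of the machine. -/
abbrev St := List ℕ × List (ℕ × List Bool) × List (List Bool)

/-- The history including the current stage. -/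
def curH (s : ℕ) (q : St) : List (List Bool) :=
  q.2.2 ++ [res (fun y => eqb (q.1.getD y 0) 1) s]

/-- What requirement `k` asks for. -/
def ask (g : Att) (s : ℕ) (q : St) (k : ℕ) : Option (ℕ × List Bool) :=
  g k s (curH s q) (q.2.1.getD k (0, [])).1 (q.1.getD (q.2.1.getD k (0, [])).1 0)
    (q.2.1.getD k (0, [])).2

/-- One step of the machine. -/
def mstep (g : Att) (s : ℕ) (q : St) : St :=
  ((List.range q.2.1.length).find? fun k => (ask g s q k).isSome).elim
    ((List.range (s + 1)).map fun y => q.1.getD y 0, q.2.1 ++ [(s, [])], curH s q)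
    fun k => ((List.range (s + 1)).map fun y =>
        cond (eqb y (q.2.1.getD k (0, [])).1) ((ask g s q k).getD (0, [])).1 (q.1.getD y 0),
      q.2.1.take k ++ [((q.2.1.getD k (0, [])).1, ((ask g s q k).getD (0, [])).2)], curH s q)

/-- The state at stage `s`. -/
def mst (g : Att) (s : ℕ) : St :=
  Nat.rec (motive := fun _ => St) ([], [], []) (fun s q => mstep g s q) s

theorem mst_succ (g : Att) (s : ℕ) : mst g (s + 1) = mstep g s (mst g s) := rfl

theorem pr_mst {g : Att}
    (hg : Primrec fun p : ℕ × ℕ × List (List Bool) × ℕ × ℕ × List Bool =>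
      g p.1 p.2.1 p.2.2.1 p.2.2.2.1 p.2.2.2.2.1 p.2.2.2.2.2) : Primrec (mst g) := by
  have h1 : Primrec fun p : ℕ × St => curH p.1 p.2 := by
    unfold curH; fun_prop
  have h2 : Primrec fun p : ℕ × St × ℕ => ask g p.1 p.2.1 p.2.2 := by
    unfold ask
    exact hg.comp (g := fun p : ℕ × St × ℕ => (p.2.2, p.1, curH p.1 p.2.1,
      (p.2.1.2.1.getD p.2.2 (0, [])).1, p.2.1.1.getD (p.2.1.2.1.getD p.2.2 (0, [])).1 0,
      (p.2.1.2.1.getD p.2.2 (0, [])).2)) (by fun_prop)
  have h3 : Primrec fun p : ℕ × St => mstep g p.1 p.2 := by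
    unfold mstep; fun_prop
  unfold mst
  fun_prop

/-- The counter. -/
def mc (g : Att) (s y : ℕ) : ℕ := (mst g s).1.getD y 0
/-- The number of active requirements. -/
def mlen (g : Att) (s : ℕ) : ℕ := (mst g s).2.1.length
/-- The entry of requirement `k`. -/
def ment (g : Att) (s k : ℕ) : ℕ × List Bool := (mst g s).2.1.getD k (0, [])

/-- The history of the approximations read off a counter. -/
def hist (c : ℕ → ℕ → ℕ) (t : ℕ) : List (List Bool) :=
  (List.range (t + 1)).map fun s => res (fun y => eqb (c s y) 1) s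

theorem getD_map_range {β : Type*} (F : ℕ → β) (n y : ℕ) (d : β) :
    ((List.range n).map F).getD y d = if y < n then F y else d := by
  split_ifs with h
  · simp [List.getD_eq_getElem?_getD, h]
  · rw [List.getD_eq_default]
    simpa using h

theorem mstep_hist (g : Att) (s : ℕ) (q : St) : (mstep g s q).2.2 = curH s q := by
  unfold mstep
  cases (List.range q.2.1.length).find? fun k => (ask g s q k).isSome <;> rfl

theorem curH_mst (g : Att) (s : ℕ) : curH s (mst g s) = hist (mc g) s := by
  induction s with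
  | zero => rfl
  | succ s ih =>
    unfold curH
    rw [mst_succ, mstep_hist, ih, ← mst_succ]
    unfold hist
    rw [List.range_succ (n := s + 1), List.map_append]
    rfl

/-- The request of requirement `k` at stage `s`. -/
def mG (g : Att) (s k : ℕ) : Option (ℕ × List Bool) :=
  g k s (hist (mc g) s) (ment g s k).1 (mc g s (ment g s k).1) (ment g s k).2

theorem ask_mst (g : Att) (s k : ℕ) : ask g s (mst g s) k = mG g s k := by
  unfold ask mG
  rw [curH_mst]
  rfl

theorem step_cases (g : Att) (s : ℕ) :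
    ((∀ k < mlen g s, mG g s k = none) ∧ mlen g (s + 1) = mlen g s + 1 ∧
      (∀ k < mlen g s, ment g (s + 1) k = ment g s k) ∧ ment g (s + 1) (mlen g s) = (s, []) ∧
      ∀ y, mc g (s + 1) y = if y < s + 1 then mc g s y else 0) ∨
    ∃ k < mlen g s, ∃ φ τ, mG g s k = some (φ, τ) ∧ (∀ k' < k, mG g s k' = none) ∧
      mlen g (s + 1) = k + 1 ∧ (∀ k' < k, ment g (s + 1) k' = ment g s k') ∧
      ment g (s + 1) k = ((ment g s k).1, τ) ∧
      ∀ y, mc g (s + 1) y =
        if y < s + 1 then (if y = (ment g s k).1 then φ else mc g s y) else 0 := by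
  cases h : (List.range (mst g s).2.1.length).find? fun k => (ask g s (mst g s) k).isSome with
  | none =>
    left
    have e : mst g (s + 1) = ((List.range (s + 1)).map fun y => (mst g s).1.getD y 0,
        (mst g s).2.1 ++ [(s, [])], curH s (mst g s)) := by
      rw [mst_succ, mstep, h]; rfl
    refine ⟨fun k hk => ?_, ?_, fun k hk => ?_, ?_, fun y => ?_⟩
    · have := List.find?_eq_none.1 h k (List.mem_range.2 hk)
      rw [ask_mst] at this
      simpa using this
    · simp [mlen, e]
    · simp only [ment, e]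
      rw [List.getD_append _ _ _ _ hk]
    · simp [ment, mlen, e, List.getD_eq_getElem?_getD]
    · simp only [mc, e]
      rw [getD_map_range]
  | some k =>
    right
    have hk : k < mlen g s := List.mem_range.1 (List.mem_of_find?_eq_some h)
    have h1 := List.find?_some h
    rw [ask_mst] at h1
    obtain ⟨⟨φ, τ⟩, h2⟩ := Option.isSome_iff_exists.1 h1
    have e : mst g (s + 1) = ((List.range (s + 1)).map fun y =>
        cond (eqb y (ment g s k).1) φ ((mst g s).1.getD y 0),
        (mst g s).2.1.take k ++ [((ment g s k).1, τ)], curH s (mst g s)) := by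
      rw [mst_succ, mstep, h]
      simp only [Option.elim, ask_mst, h2, Option.getD_some]
      rfl
    have hl : ((mst g s).2.1.take k).length = k := by
      rw [List.length_take]; exact min_eq_left hk.le
    refine ⟨k, hk, φ, τ, h2, fun k' hk' => ?_, ?_, fun k' hk' => ?_, ?_, fun y => ?_⟩
    · have := (List.find?_range_eq_some.1 h).2.2 k' hk'
      rw [ask_mst] at this
      simpa using this
    · simp only [mlen, e, List.length_append, hl, List.length_singleton]
    · simp only [ment, e]
      rw [List.getD_append _ _ _ _ (by rw [hl]; exact hk'), List.getD_eq_getElem?_getD,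
        List.getD_eq_getElem?_getD, List.getElem?_take_of_lt hk']
    · simp only [ment, e]
      rw [List.getD_append_right _ _ _ _ (by rw [hl]), hl]
      simp
    · simp only [mc, e]
      rw [getD_map_range]
      by_cases hy : y = (ment g s k).1
      · simp [hy, eqb]
      · simp [hy, eqb]

theorem mc_ge (g : Att) {s y : ℕ} (h : s ≤ y) : mc g s y = 0 := by
  cases s with
  | zero => rfl
  | succ s =>
    rcases step_cases g s with ⟨-, -, -, -, h5⟩ | ⟨k, -, φ, τ, -, -, -, -, -, h5⟩ <;>
      rw [h5, if_neg (by omega)]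

theorem ment_lt (g : Att) : ∀ s k, k < mlen g s → (ment g s k).1 < s := by
  intro s
  induction s with
  | zero => intro k hk; exact absurd hk (Nat.not_lt_zero _)
  | succ s ih =>
    intro k hk
    rcases step_cases g s with ⟨-, h2, h3, h4, -⟩ | ⟨j, hj, φ, τ, -, -, h2, h3, h4, -⟩
    · rcases Nat.lt_succ_iff_lt_or_eq.1 (h2 ▸ hk) with h | rfl
      · rw [h3 k h]; exact (ih k h).trans (Nat.lt_succ_self _)
      · rw [h4]; exact Nat.lt_succ_self _
    · rcases Nat.lt_succ_iff_lt_or_eq.1 (h2 ▸ hk) with h | rfl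
      · rw [h3 k h]; exact (ih k (h.trans hj)).trans (Nat.lt_succ_self _)
      · rw [h4]; exact (ih k hj).trans (Nat.lt_succ_self _)

theorem step_cases' (g : Att) (s : ℕ) :
    ((∀ k < mlen g s, mG g s k = none) ∧ mlen g (s + 1) = mlen g s + 1 ∧
      (∀ k < mlen g s, ment g (s + 1) k = ment g s k) ∧ ment g (s + 1) (mlen g s) = (s, []) ∧
      ∀ y, mc g (s + 1) y = mc g s y) ∨
    ∃ k < mlen g s, ∃ φ τ, mG g s k = some (φ, τ) ∧ (∀ k' < k, mG g s k' = none) ∧
      mlen g (s + 1) = k + 1 ∧ (∀ k' < k, ment g (s + 1) k' = ment g s k') ∧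
      ment g (s + 1) k = ((ment g s k).1, τ) ∧
      ∀ y, mc g (s + 1) y = if y = (ment g s k).1 then φ else mc g s y := by
  rcases step_cases g s with ⟨h1, h2, h3, h4, h5⟩ | ⟨k, hk, φ, τ, h0, h1, h2, h3, h4, h5⟩
  · refine Or.inl ⟨h1, h2, h3, h4, fun y => ?_⟩
    rw [h5]
    split_ifs with h
    · rfl
    · exact (mc_ge g (by omega)).symm
  · refine Or.inr ⟨k, hk, φ, τ, h0, h1, h2, h3, h4, fun y => ?_⟩
    rw [h5]
    have := ment_lt g s k hk
    by_cases h : y < s + 1
    · rw [if_pos h]
    · rw [if_neg h, if_neg (by omega)]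
      exact (mc_ge g (by omega)).symm

theorem ment_ge (g : Att) {k t0 : ℕ} (h0 : mlen g t0 ≤ k + 1) :
    ∀ t, t0 ≤ t → ∀ k', k < k' → k' < mlen g t → t0 ≤ (ment g t k').1 := by
  intro t ht
  induction t, ht using Nat.le_induction with
  | base => intro k' h1 h2; omega
  | succ t ht ih =>
    intro k' h1 h2
    rcases step_cases' g t with ⟨-, e2, e3, e4, -⟩ | ⟨j, hj, φ, τ, -, -, e2, e3, e4, -⟩
    · rcases Nat.lt_succ_iff_lt_or_eq.1 (e2 ▸ h2) with h | rfl
      · rw [e3 k' h]; exact ih k' h1 h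
      · rw [e4]; exact ht
    · rcases Nat.lt_succ_iff_lt_or_eq.1 (e2 ▸ h2) with h | rfl
      · rw [e3 k' h]; exact ih k' h1 (h.trans hj)
      · rw [e4]; exact ih k' h1 hj

theorem frozen (g : Att) {k t0 : ℕ} (h0 : mlen g t0 = k + 1) :
    ∀ t, t0 ≤ t → (∀ t', t0 ≤ t' → t' < t → ∀ k' ≤ k, mG g t' k' = none) →
      k < mlen g t ∧ ment g t k = ment g t0 k ∧ ∀ y < t0, mc g t y = mc g t0 y := by
  intro t ht
  induction t, ht using Nat.le_induction with
  | base => intro _; exact ⟨by omega, rfl, fun _ _ => rfl⟩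
  | succ t ht ih =>
    intro hq
    obtain ⟨i1, i2, i3⟩ := ih fun t' h1 h2 => hq t' h1 (by omega)
    rcases step_cases' g t with ⟨-, e2, e3, -, e5⟩ | ⟨j, hj, φ, τ, e0, -, e2, e3, -, e5⟩
    · exact ⟨by omega, by rw [e3 k i1, i2], fun y hy => by rw [e5, i3 y hy]⟩
    · have hkj : k < j := by
        by_contra hle
        rw [hq t ht (by omega) j (by omega)] at e0
        exact absurd e0 (by simp)
      have := ment_ge g h0.le t ht j hkj hj
      exact ⟨by omega, by rw [e3 k hkj, i2], fun y hy => by rw [e5, if_neg (by omega), i3 y hy]⟩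

section
variable {g : Att} (hinc : ∀ k s H x φ τ φ' τ', g k s H x φ τ = some (φ', τ') → φ < φ' ∧ φ' ≤ 2)
include hinc

theorem mc_le_succ (s y : ℕ) : mc g s y ≤ mc g (s + 1) y := by
  rcases step_cases' g s with ⟨-, -, -, -, e5⟩ | ⟨j, hj, φ, τ, e0, -, -, -, -, e5⟩
  · rw [e5]
  · rw [e5]
    split_ifs with h
    · rw [h]; exact (hinc _ _ _ _ _ _ _ _ e0).1.le
    · exact le_rfl

theorem mc_mono (y : ℕ) : Monotone fun s => mc g s y :=
  monotone_nat_of_le_succ fun s => mc_le_succ hinc s y

theorem mc_le_two (s y : ℕ) : mc g s y ≤ 2 := by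
  induction s with
  | zero => exact Nat.zero_le _
  | succ s ih =>
    rcases step_cases' g s with ⟨-, -, -, -, e5⟩ | ⟨j, hj, φ, τ, e0, -, -, -, -, e5⟩
    · rw [e5]; exact ih
    · rw [e5]
      split_ifs with h
      · exact (hinc _ _ _ _ _ _ _ _ e0).2
      · exact ih

omit hinc in
theorem after_start {k b : ℕ} (h1 : mlen g b = k)
    (h2 : ∀ t, b ≤ t → ∀ k' < k, mG g t k' = none) :
    mlen g (b + 1) = k + 1 ∧ mc g (b + 1) b = 0 ∧
    (∀ t, b < t → k < mlen g t ∧ (ment g t k).1 = b) ∧
    ∀ t, b < t → ∀ φ τ, mG g t k = some (φ, τ) → mlen g (t + 1) = k + 1 ∧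
      (ment g (t + 1) k).2 = τ ∧ ∀ y, mc g (t + 1) y = if y = b then φ else mc g t y := by
  have s0 : mlen g (b + 1) = k + 1 ∧ ment g (b + 1) k = (b, []) ∧ mc g (b + 1) b = 0 := by
    rcases step_cases' g b with ⟨-, e2, -, e4, e5⟩ | ⟨j, hj, φ, τ, e0, -, -, -, -, -⟩
    · exact ⟨by omega, by rw [← h1, e4], by rw [e5, mc_ge g le_rfl]⟩
    · rw [h2 b le_rfl j (by omega)] at e0
      exact absurd e0 (by simp)
  have s1 : ∀ t, b < t → k < mlen g t ∧ (ment g t k).1 = b := by
    intro t ht
    induction t, ht using Nat.le_induction with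
    | base => exact ⟨by change k < mlen g (b + 1); omega, by rw [s0.2.1]⟩
    | succ t ht ih =>
      rcases step_cases' g t with ⟨-, e2, e3, -, -⟩ | ⟨j, hj, φ, τ, e0, -, e2, e3, e4, -⟩
      · exact ⟨by omega, by rw [e3 k ih.1, ih.2]⟩
      · have hkj : k ≤ j := by
          by_contra hle
          rw [h2 t (by omega) j (by omega)] at e0
          exact absurd e0 (by simp)
        refine ⟨by omega, ?_⟩
        rcases hkj.lt_or_eq with h | rfl
        · rw [e3 k h, ih.2]
        · rw [e4, ih.2]
  refine ⟨s0.1, s0.2.2, s1, fun t ht φ τ hG => ?_⟩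
  obtain ⟨i1, i2⟩ := s1 t ht
  rcases step_cases' g t with ⟨e1, -, -, -, -⟩ | ⟨j, hj, φ', τ', e0, e1, e2, -, e4, e5⟩
  · rw [e1 k i1] at hG
    exact absurd hG (by simp)
  · have hkj : k = j := by
      rcases lt_trichotomy k j with h | h | h
      · rw [e1 k h] at hG
        exact absurd hG (by simp)
      · exact h
      · rw [h2 t (by omega) j h] at e0
        exact absurd e0 (by simp)
    subst hkj
    rw [hG] at e0
    obtain ⟨rfl, rfl⟩ := Prod.mk.inj (Option.some.inj e0)
    exact ⟨e2, by rw [e4], fun y => by rw [e5, i2]⟩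

theorem exists_start (k : ℕ) :
    ∃ b, mlen g b = k ∧ ∀ t, b ≤ t → ∀ k' < k, mG g t k' = none := by
  classical
  induction k with
  | zero => exact ⟨0, rfl, fun _ _ _ h => absurd h (Nat.not_lt_zero _)⟩
  | succ k ih =>
    obtain ⟨b, h1, h2⟩ := ih
    obtain ⟨a1, a2, a3, a4⟩ := after_start h1 h2
    -- a stage after which `k` is quiet, at which the list has length `k + 1`
    have key : ∀ d t, b < t → mlen g t = k + 1 → 2 - mc g t b ≤ d →
        ∃ l, b < l ∧ mlen g l = k + 1 ∧ ∀ t', l ≤ t' → mG g t' k = none := by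
      intro d
      induction d using Nat.strong_induction_on with
      | _ d ihd =>
        intro t ht hl hd
        by_cases hq : ∀ t', t ≤ t' → mG g t' k = none
        · exact ⟨t, ht, hl, hq⟩
        · push Not at hq
          obtain ⟨t', ht', hG⟩ := hq
          obtain ⟨⟨φ, τ⟩, hG⟩ := Option.ne_none_iff_exists'.1 hG
          obtain ⟨c1, -, c3⟩ := a4 t' (by omega) φ τ hG
          have c4 := hinc _ _ _ _ _ _ _ _ hG
          rw [(a3 t' (by omega)).2] at c4
          have c5 := mc_mono hinc b ht'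
          have c6 := c3 b
          simp only [if_true] at c6 c5
          exact ihd (2 - mc g (t' + 1) b) (by omega) (t' + 1) (by omega) c1 le_rfl
    obtain ⟨l, hl1, hl2, hl3⟩ := key _ (b + 1) (by omega) a1 le_rfl
    refine ⟨l, hl2, fun t ht k' hk' => ?_⟩
    rcases Nat.lt_succ_iff_lt_or_eq.1 hk' with h | rfl
    · exact h2 t (by omega) k' h
    · exact hl3 t ht

/-- The final behaviour of requirement `k`. -/
theorem machine_run (k : ℕ) : ∃ (b : ℕ) (τ : ℕ → List Bool),
    mc g (b + 1) b = 0 ∧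
    (∀ t, b ≤ t → (t = b ∨ g k t (hist (mc g) t) b (mc g t b) (τ t) ≠ none) → ∀ t', t < t' →
      (∀ t'', t < t'' → t'' < t' → g k t'' (hist (mc g) t'') b (mc g t'' b) (τ t'') = none) →
      τ t' = τ (t + 1) ∧ ∀ y ≤ t, mc g t' y = mc g (t + 1) y) ∧
    ∀ t, b < t → ∀ φ' τ', g k t (hist (mc g) t) b (mc g t b) (τ t) = some (φ', τ') →
      τ (t + 1) = τ' ∧ ∀ y, mc g (t + 1) y = if y = b then φ' else mc g t y := by
  obtain ⟨b, h1, h2⟩ := exists_start hinc k
  obtain ⟨a1, a2, a3, a4⟩ := after_start h1 h2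
  have eG : ∀ t, b < t → mG g t k = g k t (hist (mc g) t) b (mc g t b) (ment g t k).2 := by
    intro t ht
    rw [mG, (a3 t ht).2]
  refine ⟨b, fun t => (ment g t k).2, a2, fun t ht hor t' ht' hq => ?_, fun t ht φ' τ' hG => ?_⟩
  · have hl : mlen g (t + 1) = k + 1 := by
      rcases ht.lt_or_eq with h | rfl
      · rcases hor with rfl | hG
        · exact a1
        · rw [← eG t h] at hG
          obtain ⟨⟨φ, τ⟩, hG⟩ := Option.ne_none_iff_exists'.1 hG
          exact (a4 t h φ τ hG).1
      · exact a1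
    obtain ⟨-, f2, f3⟩ := frozen g hl t' ht' fun t'' c1 c2 k' hk' => by
      rcases hk'.lt_or_eq with h | rfl
      · exact h2 t'' (by omega) k' h
      · rw [eG t'' (by omega)]; exact hq t'' (by omega) c2
    exact ⟨congrArg Prod.snd f2, fun y hy => f3 y (by omega)⟩
  · rw [← eG t ht] at hG
    exact (a4 t ht φ' τ' hG).2

end

end Pool.Agent.P.MP_535d4d_lc
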