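import Pool.Agent.P.MP_535d4d_lc.BuildA

/-!
Verification of the splitting construction, from its defining equations.
-/

namespace Pool.Agent.P.MP_535d4d_lc

open Pool.Agent.Lib.Comp Filter

/-- The data of the splitting construction. -/
structure Data where
  a : ℕ → ℕ → Bool
  f : ℕ → ℕ → Bool
  E : ℕ → ℕ → Prop
  cur : ℕ → ℕ → Option Bool
  pr : ℕ → ℕ → Option Bool
  ct : ℕ → ℕ → ℕ → Option Bool

namespace Data

variable (D : Data)

/-- Stage `t` agrees with stage `s` below `s`. -/
def Ag (s t : ℕ) : Prop := ∀ y < s, D.a t y = D.a s y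
/-- An old promise for `x` applies at stage `t`. -/
def App (t x : ℕ) : Prop := ∃ s < t, D.pr s x ≠ none ∧ D.Ag s t
/-- Requirement `e` restrains `x` at stage `t`. -/
def RS (e t x : ℕ) : Prop := ∃ s < t, x < s ∧ ∃ z, D.ct s e z ≠ none
/-- Requirement `e` is injured at stage `t`. -/
def Inj (e t : ℕ) : Prop := ∃ x, D.pr t x ≠ none ∧ ∃ e0 < e, D.RS e0 t x
/-- The certificate of stage `s` for `(e, z)` applies at stage `t`. -/
def CA (e z t s : ℕ) : Prop :=
  s < t ∧ D.ct s e z ≠ none ∧ D.Ag s t ∧ ∀ t', s < t' → t' < t → ¬ D.Inj e t'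
/-- Agreement below `z`. -/
def Cond1 (t e z : ℕ) : Prop :=
  ∀ z' < z, (∃ s, D.CA e z' t s) ∧ ∀ s, D.CA e z' t s → D.ct s e z' = some (D.f z' t)
/-- No certificate for `z` applies. -/
def Cond2 (t e z : ℕ) : Prop := ¬ ∃ s, D.CA e z t s
/-- The current value at `x` is backed by the promises. -/
def Cons (i : Bool) (t x : ℕ) : Prop :=
  D.cur t x = some i ↔ ∃ s ≤ t, D.pr s x = some i ∧ D.Ag s t

/-- The defining equations. -/
structure Spec : Prop where
  f0 : ∀ x, D.f x 0 = false
  off : ∀ t x, D.f x t = false → D.cur t x = none ∧ D.pr t x = none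
  vis : ∀ t x, D.f x t = true → D.App t x →
    ∃ s < t, D.pr s x ≠ none ∧ D.Ag s t ∧ D.cur t x = D.pr s x ∧ D.pr t x = none
  new : ∀ t x, D.f x (t + 1) = true → ¬ D.App (t + 1) x → D.E (t + 1) x →
    ∃ i, D.pr (t + 1) x = some i ∧ D.cur (t + 1) x = some i ∧ (∀ j, D.cur t x = some j → i = j) ∧
      (D.cur t x = none → ∀ e, D.RS e (t + 1) x → (∀ e0 < e, ¬ D.RS e0 (t + 1) x) → i = !e.bodd)
  stay : ∀ t x, D.f x (t + 1) = true → ¬ D.App (t + 1) x → ¬ D.E (t + 1) x →
    D.pr (t + 1) x = none ∧ D.cur (t + 1) x = D.cur t x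
  ct_some : ∀ t e z y, D.ct t e z = some y → z < t ∧ D.Cond1 t e z ∧ D.Cond2 t e z ∧
    ∃ u ≤ t, (∀ x < u, D.Cons e.bodd t x) ∧
      U e.div2 t (res (J (D.a t) fun x => eqb (D.cur t x) (some e.bodd)) u) z = some y
  ct_ne : ∀ t e z, Nat.pair e z < t → D.Cond1 t e z → D.Cond2 t e z →
    (∃ u ≤ t, (∀ x < u, D.Cons e.bodd t x) ∧
      U e.div2 t (res (J (D.a t) fun x => eqb (D.cur t x) (some e.bodd)) u) z ≠ none) →
    D.ct t e z ≠ none

variable {D}

theorem abab (h2 : ∀ y t, chg (fun s => D.a s y) t ≤ 2) {s1 s2 t1 t2 : ℕ} (l1 : s1 ≤ s2)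
    (l2 : s2 ≤ t1) (l3 : t1 ≤ t2) (n12 : ¬ D.Ag s1 s2) (h1 : D.Ag s1 t1) (h3 : D.Ag s2 t2) :
    False := by
  unfold Ag at n12
  push Not at n12
  obtain ⟨y, hy, hne⟩ := n12
  have e1 := h1 y hy
  have e2 := h3 y (by omega)
  have c1 := chg_lt (v := fun s => D.a s y) l1 (Ne.symm hne)
  have c2 := chg_lt (v := fun s => D.a s y) l2 (by simp only [e1]; exact hne)
  have c3 := chg_lt (v := fun s => D.a s y) l3 (by simp only [e1, e2]; exact Ne.symm hne)
  have := h2 y t2
  omega

theorem Ag.refl (s : ℕ) : D.Ag s s := fun _ _ => rfl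

theorem Ag.of_le {s1 s2 t : ℕ} (l : s1 ≤ s2) (h1 : D.Ag s1 t) (h2 : D.Ag s2 t) : D.Ag s1 s2 :=
  fun y hy => by rw [← h2 y (by omega), h1 y hy]

namespace Spec

variable (S : D.Spec)
include S

theorem cases (t x : ℕ) :
    (D.f x (t + 1) = false ∧ D.cur (t + 1) x = none ∧ D.pr (t + 1) x = none) ∨
    (D.f x (t + 1) = true ∧ ∃ s < t + 1, D.pr s x ≠ none ∧ D.Ag s (t + 1) ∧
      D.cur (t + 1) x = D.pr s x ∧ D.pr (t + 1) x = none) ∨
    (D.f x (t + 1) = true ∧ ¬ D.App (t + 1) x ∧ D.E (t + 1) x ∧
      ∃ i, D.pr (t + 1) x = some i ∧ D.cur (t + 1) x = some i ∧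
      (∀ j, D.cur t x = some j → i = j) ∧
      (D.cur t x = none → ∀ e, D.RS e (t + 1) x → (∀ e0 < e, ¬ D.RS e0 (t + 1) x) →
        i = !e.bodd)) ∨
    (D.f x (t + 1) = true ∧ ¬ D.App (t + 1) x ∧ ¬ D.E (t + 1) x ∧
      D.pr (t + 1) x = none ∧ D.cur (t + 1) x = D.cur t x) := by
  cases hf : D.f x (t + 1) with
  | false => exact Or.inl ⟨rfl, S.off _ _ hf⟩
  | true =>
    by_cases hA : D.App (t + 1) x
    · exact Or.inr (Or.inl ⟨rfl, S.vis _ _ hf hA⟩)
    · by_cases hE : D.E (t + 1) x
      · exact Or.inr (Or.inr (Or.inl ⟨rfl, hA, hE, S.new _ _ hf hA hE⟩))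
      · exact Or.inr (Or.inr (Or.inr ⟨rfl, hA, hE, S.stay _ _ hf hA hE⟩))

theorem pr_ne {t x : ℕ} (h : D.pr t x ≠ none) : ¬ D.App t x ∧ D.E t x := by
  cases t with
  | zero => exact absurd (S.off 0 x (S.f0 x)).2 h
  | succ t =>
    rcases S.cases t x with ⟨-, -, h1⟩ | ⟨-, s, -, -, -, -, h1⟩ | ⟨-, h1, h2, -⟩ | ⟨-, -, -, h1, -⟩
    · exact absurd h1 h
    · exact absurd h1 h
    · exact ⟨h1, h2⟩
    · exact absurd h1 h

theorem pr_unique {s1 s2 t x : ℕ} (p1 : D.pr s1 x ≠ none) (p2 : D.pr s2 x ≠ none)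
    (a1 : D.Ag s1 t) (a2 : D.Ag s2 t) : s1 = s2 := by
  rcases lt_trichotomy s1 s2 with h | h | h
  · exact absurd ⟨s1, h, p1, Ag.of_le h.le a1 a2⟩ (S.pr_ne p2).1
  · exact h
  · exact absurd ⟨s2, h, p2, Ag.of_le h.le a2 a1⟩ (S.pr_ne p1).1

theorem cur_f {t x : ℕ} (h : D.cur t x ≠ none) : D.f x t = true := by
  by_contra hne
  exact h (S.off t x (by simpa using hne)).1

/-- The side approximations change no more often than `f`. -/
theorem chg_side (h2 : ∀ y t, chg (fun s => D.a s y) t ≤ 2) (x : ℕ) (i0 : Bool) (t : ℕ) :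
    chg (fun t => eqb (D.cur t x) (some i0)) t ≤ chg (D.f x) t := by
  have key : ∀ t, ∃ (d : ℕ → ℕ) (T : ℕ → Bool),
      (∀ s ≤ t, ∀ i, D.pr s x = some i → T s = i) ∧
      (∀ t' ≤ t, ∀ s ≤ t', ∀ i, D.pr s x = some i → (∃ t'', t' < t'' ∧ D.Ag s t'') →
        d s + (if i = T t' then 0 else 1) ≤ d t') ∧
      (∀ j, D.cur t x = some j → T t = j) ∧
      chg (fun t => eqb (D.cur t x) (some i0)) t + d t +
        (if D.cur t x = none then (if T t = i0 then 0 else 1) + (if D.f x t = true then 1 else 0)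
          else 0) ≤ chg (D.f x) t := by
    intro t
    induction t with
    | zero =>
      obtain ⟨c0, p0⟩ := S.off 0 x (S.f0 x)
      refine ⟨fun _ => 0, fun _ => i0, ?_, ?_, ?_, ?_⟩
      · intro s hs i h
        rw [Nat.le_zero.1 hs, p0] at h
        exact absurd h (by simp)
      · intro t' ht' s hs i h
        rw [show s = 0 by omega, p0] at h
        exact absurd h (by simp)
      · intro j h
        rw [c0] at h
        exact absurd h (by simp)
      · simp [chg, c0, S.f0]
    | succ t ih =>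
      obtain ⟨d, T, I1, I2, I3, I4⟩ := ih
      -- extension of the ghost functions by new values at `t + 1`
      have ext : ∀ (dn : ℕ) (Tn : Bool),
          (∀ i, D.pr (t + 1) x = some i → Tn = i) →
          (∀ s ≤ t, ∀ i, D.pr s x = some i → (∃ t'', t + 1 < t'' ∧ D.Ag s t'') →
            d s + (if i = Tn then 0 else 1) ≤ dn) →
          (∀ j, D.cur (t + 1) x = some j → Tn = j) →
          chg (fun t => eqb (D.cur t x) (some i0)) (t + 1) + dn +
            (if D.cur (t + 1) x = none then (if Tn = i0 then 0 else 1) +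
              (if D.f x (t + 1) = true then 1 else 0) else 0) ≤ chg (D.f x) (t + 1) →
          ∃ (d : ℕ → ℕ) (T : ℕ → Bool),
          (∀ s ≤ t + 1, ∀ i, D.pr s x = some i → T s = i) ∧
          (∀ t' ≤ t + 1, ∀ s ≤ t', ∀ i, D.pr s x = some i → (∃ t'', t' < t'' ∧ D.Ag s t'') →
            d s + (if i = T t' then 0 else 1) ≤ d t') ∧
          (∀ j, D.cur (t + 1) x = some j → T (t + 1) = j) ∧
          chg (fun t => eqb (D.cur t x) (some i0)) (t + 1) + d (t + 1) +
            (if D.cur (t + 1) x = none then (if T (t + 1) = i0 then 0 else 1) +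
              (if D.f x (t + 1) = true then 1 else 0) else 0) ≤ chg (D.f x) (t + 1) := by
        intro dn Tn e1 e2 e3 e4
        refine ⟨fun s => if s = t + 1 then dn else d s, fun s => if s = t + 1 then Tn else T s,
          ?_, ?_, ?_, ?_⟩
        · intro s hs i h
          by_cases hst : s = t + 1
          · simp only [hst, if_true]; exact e1 i (hst ▸ h)
          · simp only [hst, if_false]; exact I1 s (by omega) i h
        · intro t' ht' s hs i h hex
          by_cases htt : t' = t + 1
          · by_cases hst : s = t + 1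
            · simp only [hst, htt, if_true]
              rw [e1 i (hst ▸ h)]
              simp
            · simp only [hst, htt, if_true, if_false]
              exact e2 s (by omega) i h (htt ▸ hex)
          · have hst : s ≠ t + 1 := by omega
            simp only [hst, htt, if_false]
            exact I2 t' (by omega) s hs i h hex
        · simpa using e3
        · simpa using e4
      have I2' : ∀ s ≤ t, ∀ i, D.pr s x = some i → (∃ t'', t + 1 < t'' ∧ D.Ag s t'') →
          d s + (if i = T t then 0 else 1) ≤ d t := by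
        intro s hs i h ⟨t'', h1, h2⟩
        exact I2 t le_rfl s hs i h ⟨t'', by omega, h2⟩
      have hcf := @cur_f D S t x
      rcases S.cases t x with ⟨c1, c2, c3⟩ | ⟨c1, s0, c2, c3, c4, c5, c6⟩ |
        ⟨c1, -, -, i, c2, c3, c4, -⟩ | ⟨c1, -, -, c2, c3⟩
      · refine ext (d t) (T t) (by simp [c3]) I2' (by simp [c2]) ?_
        simp only [chg, c1, c2] at I4 ⊢
        cases hc : D.cur t x with
        | none =>
          cases hf : D.f x t <;> simp [hc, hf, eqb] at I4 ⊢ <;> omega
        | some j =>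
          have hf := hcf (by simp [hc])
          have hT := I3 j hc
          cases j <;> cases i0 <;> simp [hc, hf, eqb, hT] at I4 ⊢ <;> omega
      · obtain ⟨i, hi⟩ := Option.ne_none_iff_exists'.1 c3
        have hT0 := I1 s0 (by omega) i hi
        have hd := I2 t le_rfl s0 (by omega) i hi ⟨t + 1, by omega, c4⟩
        refine ext (d s0) i (by simp [c6]) ?_ (by simp [c5, hi]) ?_
        · intro s hs i' h ⟨t'', h1, h3⟩
          rcases le_or_gt s s0 with hle | hlt
          · have := I2 s0 (by omega) s hle i' h ⟨t'', by omega, h3⟩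
            rwa [hT0] at this
          · exfalso
            refine abab h2 hlt.le (by omega : s ≤ t + 1) h1.le ?_ c4 h3
            intro hag
            exact (S.pr_ne (by rw [h]; simp)).1 ⟨s0, hlt, c3, hag⟩
        · simp only [chg, c1, c5, hi] at I4 ⊢
          cases hc : D.cur t x with
          | none =>
            cases hf : D.f x t <;> cases i <;> cases i0 <;> cases hT : T t <;>
              simp [hc, hf, eqb, hT] at I4 hd ⊢ <;> omega
          | some j =>
            have hf := hcf (by simp [hc])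
            have hT := I3 j hc
            cases j <;> cases i <;> cases i0 <;> simp [hc, hf, eqb, hT] at I4 hd ⊢ <;> omega
      · refine ext (d t + if i = T t then 0 else 1) i (by simp [c2]) ?_ (by simp [c3]) ?_
        · intro s hs i' h hex
          have := I2' s hs i' h hex
          cases i <;> cases i' <;> cases hT : T t <;> simp [hT] at this ⊢ <;> omega
        · simp only [chg, c1, c3] at I4 ⊢
          cases hc : D.cur t x with
          | none =>
            cases hf : D.f x t <;> cases i <;> cases i0 <;> cases hT : T t <;>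
              simp [hc, hf, eqb, hT] at I4 ⊢ <;> omega
          | some j =>
            have hf := hcf (by simp [hc])
            have hT := I3 j hc
            have hij := c4 j hc
            subst hij
            cases i <;> cases i0 <;> simp [hc, hf, eqb, hT] at I4 ⊢ <;> omega
      · refine ext (d t) (T t) (by simp [c2]) I2' (by rw [c3]; exact I3) ?_
        simp only [chg, c1, c3] at I4 ⊢
        cases hc : D.cur t x with
        | none =>
          cases hf : D.f x t <;> simp [hc, hf] at I4 ⊢ <;> omega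
        | some j =>
          have hf := hcf (by simp [hc])
          simp [hc, hf] at I4 ⊢
          omega
  obtain ⟨d, T, -, -, -, h⟩ := key t
  omega

end Spec

end Data

end Pool.Agent.P.MP_535d4d_lc
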