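import Pool.Agent.P.MP_535d4d_lc.Spec

/-!
Verification of the splitting construction: limits, preservation, finite action.
-/

namespace Pool.Agent.P.MP_535d4d_lc

open Pool.Agent.Lib.Comp Filter

namespace Data

/-- `s` is a true stage. -/
def Tr (D : Data) (A : ℕ → Bool) (s : ℕ) : Prop := ∀ y < s, D.a s y = A y

/-- The hypotheses of the verification. -/
structure Hyp (D : Data) (A X : ℕ → Bool) : Prop where
  spec : D.Spec
  h2 : ∀ y t, chg (fun s => D.a s y) t ≤ 2
  hA : ∀ y, ∀ᶠ s in atTop, D.a s y = A y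
  hf : ∀ x, ∀ᶠ s in atTop, D.f x s = X x
  E1 : ∀ t x, D.E t x → D.Tr A t → X x = true
  E2 : ∀ x, X x = true → ∀ᶠ t in atTop, D.E t x
  N1 : ∀ x, (∃ᶠ s in atTop, D.pr s x ≠ none) → ∃ s, D.pr s x ≠ none ∧ D.Tr A s
  N2 : ∀ e z m, (∃ᶠ s in atTop, D.ct s e z ≠ none) → ∃ s, m ≤ s ∧ D.ct s e z ≠ none ∧ D.Tr A s
  pa : Primrec fun p : ℕ × ℕ => D.a p.1 p.2
  pcur : Primrec fun p : ℕ × ℕ => D.cur p.1 p.2
  ppr : Primrec fun p : ℕ × ℕ => D.pr p.1 p.2
  pct : Primrec fun p : ℕ × ℕ × ℕ => D.ct p.1 p.2.1 p.2.2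

open Classical in
/-- The part of `X` on side `i`. -/
noncomputable def part (D : Data) (A : ℕ → Bool) (i : Bool) (x : ℕ) : Bool :=
  decide (∃ s, D.pr s x = some i ∧ D.Tr A s)

namespace Hyp

variable {D : Data} {A X : ℕ → Bool} (H : D.Hyp A X)
include H

theorem tr_ev {s : ℕ} (h : D.Tr A s) : ∀ᶠ t in atTop, D.Ag s t := by
  filter_upwards [eventually_forall_lt (T := s) fun y _ => H.hA y] with t ht y hy
  rw [ht y hy, h y hy]

theorem tr_of_freq {s : ℕ} (h : ∃ᶠ t in atTop, D.Ag s t) : D.Tr A s := by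
  intro y hy
  obtain ⟨t, h1, h2⟩ := (h.and_eventually (H.hA y)).exists
  rw [← h1 y hy, h2]

theorem not_tr_ev {s : ℕ} (h : ¬ D.Tr A s) : ∀ᶠ t in atTop, ¬ D.Ag s t := by
  by_contra hne
  exact h (H.tr_of_freq (by simpa [Filter.Frequently] using hne))

theorem pr_fin (x : ℕ) : ∀ᶠ t in atTop, D.pr t x = none := by
  by_contra hne
  obtain ⟨s, h1, h2⟩ := H.N1 x (by simpa [Filter.Frequently] using hne)
  apply hne
  filter_upwards [H.tr_ev h2, eventually_gt_atTop s] with t h3 h4
  by_contra h5
  exact (H.spec.pr_ne h5).1 ⟨s, h4, h1, h3⟩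

theorem true_pr {x : ℕ} (hx : X x = true) : ∃ s i, D.pr s x = some i ∧ D.Tr A s := by
  obtain ⟨T, hT⟩ := eventually_atTop.1 (H.pr_fin x)
  have h1 : ∀ᶠ t in atTop, ∃ s < T, D.pr s x ≠ none ∧ D.Ag s t := by
    filter_upwards [H.hf x, H.E2 x hx, eventually_ge_atTop T, eventually_ge_atTop 1]
      with t h1 h2 h3 h4
    obtain ⟨t, rfl⟩ : ∃ t', t = t' + 1 := ⟨t - 1, by omega⟩
    by_cases hA : D.App (t + 1) x
    · obtain ⟨s, -, p1, p2⟩ := hA
      refine ⟨s, ?_, p1, p2⟩
      by_contra hle
      exact p1 (hT s (by omega))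
    · obtain ⟨i, p1, -⟩ := H.spec.new t x (h1.trans hx) hA h2
      rw [hT _ h3] at p1
      exact absurd p1 (by simp)
  obtain ⟨s, -, h2⟩ := exists_frequently_of_eventually_bounded h1.frequently
  obtain ⟨i, hi⟩ := Option.ne_none_iff_exists'.1 h2.exists.choose_spec.1
  exact ⟨s, i, hi, H.tr_of_freq (h2.mono fun t h => h.2)⟩

theorem mem_of_pr {s x : ℕ} {i : Bool} (h1 : D.pr s x = some i) (h2 : D.Tr A s) : X x = true :=
  H.E1 s x (H.spec.pr_ne (by rw [h1]; simp)).2 h2

theorem cur_lim_true {s x : ℕ} {i : Bool} (h1 : D.pr s x = some i) (h2 : D.Tr A s) :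
    ∀ᶠ t in atTop, D.cur t x = some i := by
  have hx := H.mem_of_pr h1 h2
  have h1' : D.pr s x ≠ none := by rw [h1]; simp
  filter_upwards [H.hf x, H.tr_ev h2, eventually_gt_atTop s] with t h3 h4 h5
  obtain ⟨s', -, p1, p2, p3, -⟩ := H.spec.vis t x (h3.trans hx) ⟨s, h5, h1', h4⟩
  rw [p3, H.spec.pr_unique p1 h1' p2 h4, h1]

theorem cur_lim_false {x : ℕ} (hx : X x = false) : ∀ᶠ t in atTop, D.cur t x = none := by
  filter_upwards [H.hf x] with t h
  exact (H.spec.off t x (h.trans hx)).1

theorem part_lim (i : Bool) (x : ℕ) :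
    ∀ᶠ t in atTop, eqb (D.cur t x) (some i) = D.part A i x := by
  cases hx : X x with
  | false =>
    have h1 : D.part A i x = false := by
      simp only [part, decide_eq_false_iff_not]
      rintro ⟨s, p1, p2⟩
      rw [H.mem_of_pr p1 p2] at hx
      exact absurd hx (by simp)
    filter_upwards [H.cur_lim_false hx] with t ht
    rw [ht, h1]
    rfl
  | true =>
    obtain ⟨s, j, p1, p2⟩ := H.true_pr hx
    filter_upwards [H.cur_lim_true p1 p2] with t ht
    rw [ht]
    by_cases hij : j = i
    · subst hij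
      have : D.part A j x = true := by
        simp only [part, decide_eq_true_eq]
        exact ⟨s, p1, p2⟩
      rw [this]; simp
    · have : D.part A i x = false := by
        simp only [part, decide_eq_false_iff_not]
        rintro ⟨s', q1, q2⟩
        obtain ⟨t', r1, r2⟩ := ((H.cur_lim_true p1 p2).and (H.cur_lim_true q1 q2)).exists
        exact hij (Option.some.inj (r1.symm.trans r2))
      rw [this]; simpa using hij

theorem eq_or (x : ℕ) : X x = (D.part A false x || D.part A true x) := by
  cases hx : X x with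
  | false =>
    symm
    simp only [part, Bool.or_eq_false_iff, decide_eq_false_iff_not]
    constructor <;>
    · rintro ⟨s, p1, p2⟩
      rw [H.mem_of_pr p1 p2] at hx
      exact absurd hx (by simp)
  | true =>
    obtain ⟨s, j, p1, p2⟩ := H.true_pr hx
    symm
    simp only [part, Bool.or_eq_true, decide_eq_true_eq]
    cases j
    · exact Or.inl ⟨s, p1, p2⟩
    · exact Or.inr ⟨s, p1, p2⟩

theorem part_nce {n : ℕ} (hn : ∀ x t, chg (D.f x) t ≤ n) (i : Bool) : NCE n (D.part A i) := by
  have := H.pcur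
  refine NCE.of_primrec (fun x t => eqb (D.cur t x) (some i)) (by fun_prop) fun x =>
    ⟨?_, H.part_lim i x, fun t => (H.spec.chg_side H.h2 x i t).trans (hn x t)⟩
  rw [(H.spec.off 0 x (H.spec.f0 x)).1]
  rfl

theorem cons_ev (i : Bool) (x : ℕ) : ∀ᶠ t in atTop, D.Cons i t x := by
  obtain ⟨T, hT⟩ := eventually_atTop.1 (H.pr_fin x)
  have h1 : ∀ᶠ t in atTop, ∀ s < T, ¬ D.Tr A s → ¬ D.Ag s t := by
    apply eventually_forall_lt
    intro s _
    by_cases h : D.Tr A s
    · exact Eventually.of_forall fun t h' => absurd h h'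
    · filter_upwards [H.not_tr_ev h] with t ht _
      exact ht
  have h2 : ∀ᶠ t in atTop, ∀ s < T, D.Tr A s → D.Ag s t := by
    apply eventually_forall_lt
    intro s _
    by_cases h : D.Tr A s
    · filter_upwards [H.tr_ev h] with t ht _
      exact ht
    · exact Eventually.of_forall fun t h' => absurd h' h
  filter_upwards [h1, h2, H.part_lim i x, eventually_ge_atTop T] with t e1 e2 e3 e4
  unfold Cons
  rw [← eqb_true, e3]
  simp only [part, decide_eq_true_eq]
  have hlt : ∀ s, D.pr s x = some i → s < T := by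
    intro s hs
    by_contra hle
    rw [hT s (by omega)] at hs
    exact absurd hs (by simp)
  constructor
  · rintro ⟨s, p1, p2⟩
    exact ⟨s, by have := hlt s p1; omega, p1, e2 s (hlt s p1) p2⟩
  · rintro ⟨s, -, p1, p2⟩
    refine ⟨s, p1, ?_⟩
    by_contra hne
    exact e1 s (hlt s p1) hne p2

theorem preserve {s e z x : ℕ} (hct : D.ct s e z ≠ none) (htr : D.Tr A s)
    (hinj : ∀ t, s < t → ¬ D.Inj e t) (hx : x < s) (hc : D.Cons e.bodd s x) :
    eqb (D.cur s x) (some e.bodd) = D.part A e.bodd x := by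
  by_cases h : D.cur s x = some e.bodd
  · obtain ⟨s', l, p1, p2⟩ := hc.1 h
    have : D.part A e.bodd x = true := by
      simp only [part, decide_eq_true_eq]
      exact ⟨s', p1, fun y hy => by rw [← p2 y hy, htr y (by omega)]⟩
    rw [this]; simpa using h
  · have key : ∀ t, s ≤ t → D.cur t x ≠ some e.bodd ∧
        ∀ s', s < s' → s' ≤ t → D.pr s' x ≠ some e.bodd := by
      intro t ht
      induction t, ht using Nat.le_induction with
      | base => exact ⟨h, fun s' h1 h2 => by omega⟩
      | succ t ht ih =>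
        obtain ⟨i1, i2⟩ := ih
        have fin : D.pr (t + 1) x ≠ some e.bodd →
            ∀ s', s < s' → s' ≤ t + 1 → D.pr s' x ≠ some e.bodd := by
          intro h0 s' h1 h2
          rcases h2.lt_or_eq with h3 | rfl
          · exact i2 s' h1 (by omega)
          · exact h0
        rcases H.spec.cases t x with ⟨-, c2, c3⟩ | ⟨-, s0, c2, -, c4, c5, c6⟩ |
          ⟨-, -, -, i, c2, c3, c4, c5⟩ | ⟨-, -, -, c2, c3⟩
        · exact ⟨by simp [c2], fin (by simp [c3])⟩
        · refine ⟨?_, fin (by simp [c6])⟩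
          rw [c5]
          rcases le_or_gt s0 s with hle | hlt
          · intro hp
            have hna : ¬ D.Ag s0 s := fun hag => h (hc.2 ⟨s0, hle, hp, hag⟩)
            obtain ⟨t', q1, q2⟩ := ((H.tr_ev htr).and (eventually_ge_atTop (t + 1))).exists
            exact abab H.h2 hle (by omega : s ≤ t + 1) q2 hna c4 q1
          · exact i2 s0 hlt (by omega)
        · have hi : i ≠ e.bodd := by
            cases hcur : D.cur t x with
            | some j =>
              rw [c4 j hcur]
              intro hj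
              exact i1 (by rw [hcur, hj])
            | none =>
              rw [c5 hcur e ⟨s, by omega, hx, z, hct⟩ fun e0 he0 hrs =>
                hinj (t + 1) (by omega) ⟨x, by simp [c2], e0, he0, hrs⟩]
              simp
          exact ⟨by rw [c3]; simpa using hi, fin (by rw [c2]; simpa using hi)⟩
        · exact ⟨by rw [c3]; exact i1, fin (by simp [c2])⟩
    obtain ⟨t, q1, q2⟩ := ((H.part_lim e.bodd x).and (eventually_ge_atTop s)).exists
    rw [← q1, eqb_false.2 h, eqb_false.2 (key t q2).1]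

theorem cert_fin_z {e T : ℕ} (hT : ∀ t, T ≤ t → ¬ D.Inj e t) (z : ℕ) :
    ∀ᶠ t in atTop, D.ct t e z = none := by
  by_contra hne
  obtain ⟨s, h0, h1, h2⟩ := H.N2 e z T (by simpa [Filter.Frequently] using hne)
  apply hne
  filter_upwards [H.tr_ev h2, eventually_gt_atTop s] with t h3 h4
  by_contra h5
  obtain ⟨y, hy⟩ := Option.ne_none_iff_exists'.1 h5
  exact (H.spec.ct_some t e z y hy).2.2.1 ⟨s, h4, h1, h3, fun t' q1 _ => hT t' (by omega)⟩

theorem cert_fin_of (hXA : ¬ TLe X A) {e T : ℕ} (hT : ∀ t, T ≤ t → ¬ D.Inj e t) :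
    ∃ T', ∀ t, T' ≤ t → ∀ z, D.ct t e z = none := by
  by_contra hne
  push Not at hne
  -- certificates for arbitrarily large inputs at arbitrarily late stages
  have big : ∀ z, ∃ᶠ t in atTop, D.Cond1 t e (z + 1) := by
    intro z
    rw [frequently_atTop]
    intro T0
    obtain ⟨T1, hT1⟩ := eventually_atTop.1
      (eventually_forall_lt (T := z + 1) fun z' _ => H.cert_fin_z hT z')
    obtain ⟨t, h1, z', h2⟩ := hne (max T0 T1)
    refine ⟨t, le_of_max_le_left h1, ?_⟩
    have h3 : z + 1 ≤ z' := by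
      by_contra hlt
      exact h2 (hT1 t (le_of_max_le_right h1) z' (by omega))
    obtain ⟨y, hy⟩ := Option.ne_none_iff_exists'.1 h2
    intro z'' hz''
    exact (H.spec.ct_some t e z' y hy).2.1 z'' (by omega)
  apply hXA
  have pa := H.pa
  have pct := H.pct
  refine TLe.of_search (fun σ z => cond (ltb z T) (res X T)[z]?
    ((List.range (σ.length + 1)).findSome? fun s =>
      cond (eqb (res (D.a s) s) (σ.take s)) (D.ct s e z) none)) (by fun_prop) fun z => ?_
  by_cases hz : z < T
  · simp only [ltb_true.2 hz, cond_true, getElem?_res, if_pos hz]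
    exact ⟨⟨0, rfl⟩, fun _ b h => (Option.some.inj h).symm⟩
  · simp only [ltb_false.2 (not_lt.1 hz), cond_false]
    constructor
    · obtain ⟨T1, hT1⟩ := eventually_atTop.1 (H.cert_fin_z hT z)
      have h1 : ∃ᶠ t in atTop, ∃ s < T1, D.ct s e z ≠ none ∧ D.Ag s t := by
        refine (big z).mono fun t ht => ?_
        obtain ⟨s, -, p1, p2, -⟩ := (ht z (by omega)).1
        refine ⟨s, ?_, p1, p2⟩
        by_contra hle
        exact p1 (hT1 s (by omega))
      obtain ⟨s, -, h2⟩ := exists_frequently_of_eventually_bounded h1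
      have h3 := H.tr_of_freq (h2.mono fun t h => h.2)
      refine ⟨s, ?_⟩
      rw [List.findSome?_isSome_iff]
      refine ⟨s, by simp, ?_⟩
      rw [take_res A le_rfl, eqb_true.2 (res_congr h3), cond_true]
      exact Option.isSome_iff_ne_none.2 h2.exists.choose_spec.1
    · intro k b hb
      obtain ⟨s, hs, hb⟩ := List.exists_of_findSome?_eq_some hb
      rw [length_res, List.mem_range] at hs
      rw [take_res A (by omega)] at hb
      by_cases heq : res (D.a s) s = res A s
      · rw [eqb_true.2 heq, cond_true] at hb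
        have htr : D.Tr A s := res_eq_iff.1 heq
        have hzs := (H.spec.ct_some s e z b hb).1
        obtain ⟨t, q1, ⟨q2, q3⟩, q4⟩ := ((big z).and_eventually (((H.tr_ev htr).and
          (eventually_gt_atTop s)).and (H.hf z))).exists
        have := (q1 z (by omega)).2 s ⟨q3, by rw [hb]; simp, q2, fun t' r1 _ => hT t' (by omega)⟩
        rw [hb, q4] at this
        exact Option.some.inj this
      · rw [eqb_false.2 heq, cond_false] at hb
        exact absurd hb (by simp)

theorem inj_fin (hXA : ¬ TLe X A) (e : ℕ) : ∃ T, ∀ t, T ≤ t → ¬ D.Inj e t := by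
  induction e using Nat.strong_induction_on with
  | _ e ih =>
    have h1 : ∀ e0 < e, ∀ᶠ T in atTop, ∀ t, T ≤ t → ∀ z, D.ct t e0 z = none := by
      intro e0 he0
      obtain ⟨T, hT⟩ := ih e0 he0
      obtain ⟨T', hT'⟩ := H.cert_fin_of hXA hT
      filter_upwards [eventually_ge_atTop T'] with T'' h t ht
      exact hT' t (by omega)
    obtain ⟨T1, hT1⟩ := (eventually_forall_lt h1).exists
    obtain ⟨T2, hT2⟩ := eventually_atTop.1 (eventually_forall_lt (T := T1) fun x _ => H.pr_fin x)
    refine ⟨T2, fun t ht ⟨x, p1, e0, he0, s, _, hxs, z, p2⟩ => ?_⟩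
    have : s < T1 := by
      by_contra hle
      exact p2 (hT1 e0 he0 s (by omega) z)
    exact p1 (hT2 t ht x (by omega))

theorem not_le_join (hXA : ¬ TLe X A) (i : Bool) : ¬ TLe X (J A (D.part A i)) := by
  classical
  intro hle
  obtain ⟨e', he'⟩ := hle.exists_index
  obtain ⟨e, hb, hd⟩ : ∃ e : ℕ, e.bodd = i ∧ e.div2 = e' :=
    ⟨Nat.bit i e', Nat.bodd_bit _ _, Nat.div2_bit _ _⟩
  subst hb hd
  obtain ⟨T, hT⟩ := H.inj_fin hXA e
  obtain ⟨T', hT'⟩ := H.cert_fin_of hXA hT
  let Good : ℕ → ℕ → Prop := fun z s =>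
    D.ct s e z ≠ none ∧ D.Tr A s ∧ ∀ t, s < t → ¬ D.Inj e t
  have gval : ∀ z s, Good z s → D.ct s e z = some (X z) := by
    intro z s ⟨g1, g2, g3⟩
    obtain ⟨y, hy⟩ := Option.ne_none_iff_exists'.1 g1
    obtain ⟨-, -, -, u, hu, hc, hU⟩ := H.spec.ct_some s e z y hy
    rw [res_congr (J_congr (a' := A) (b' := D.part A e.bodd) (fun x hx => g2 x (by omega))
      fun x hx => H.preserve g1 g2 g3 (by omega) (hc x hx))] at hU
    rw [hy, (he' z).2 _ _ _ hU]
  have gev : ∀ z, ∀ᶠ t in atTop, ∀ s, D.CA e z t s ↔ Good z s := by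
    intro z
    have h1 : ∀ s < T', ∀ᶠ t in atTop, D.CA e z t s ↔ Good z s := by
      intro s _
      by_cases hg : Good z s
      · filter_upwards [H.tr_ev hg.2.1, eventually_gt_atTop s] with t q1 q2
        exact ⟨fun _ => hg, fun _ => ⟨q2, hg.1, q1, fun t' r1 _ => hg.2.2 t' r1⟩⟩
      · by_cases htr : D.Tr A s
        · by_cases hct : D.ct s e z = none
          · exact Eventually.of_forall fun t => ⟨fun h => absurd hct h.2.1, fun h => absurd h hg⟩
          · have : ∃ t, s < t ∧ D.Inj e t := by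
              by_contra hne
              push Not at hne
              exact hg ⟨hct, htr, hne⟩
            obtain ⟨t0, r1, r2⟩ := this
            filter_upwards [eventually_gt_atTop t0] with t q
            exact ⟨fun h => absurd r2 (h.2.2.2 t0 r1 q), fun h => absurd h hg⟩
        · filter_upwards [H.not_tr_ev htr] with t q
          exact ⟨fun h => absurd h.2.2.1 q, fun h => absurd h hg⟩
    filter_upwards [eventually_forall_lt h1] with t ht s
    by_cases hs : s < T'
    · exact ht s hs
    · have := hT' s (by omega) z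
      exact ⟨fun h => absurd this h.2.1, fun h => absurd this h.1⟩
  have hex : ∃ z, ¬ ∃ s, Good z s := by
    refine ⟨T', ?_⟩
    rintro ⟨s, g1, -⟩
    obtain ⟨y, hy⟩ := Option.ne_none_iff_exists'.1 g1
    have := (H.spec.ct_some s e _ y hy).1
    exact g1 (hT' s this.le _)
  have hz := Nat.find_spec hex
  have hmin := fun z => Nat.find_min hex (m := z)
  generalize Nat.find hex = z at hz hmin
  obtain ⟨k, s, hU⟩ := (he' z).1
  have ev : ∀ᶠ t in atTop, D.ct t e z ≠ none := by
    filter_upwards [eventually_forall_lt (T := z + 1) fun z' _ => gev z',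
      eventually_forall_lt (T := z) fun z' _ => H.hf z',
      eventually_forall_lt (T := k) fun x _ => H.cons_ev e.bodd x,
      eventually_forall_lt (T := k) fun x _ => H.part_lim e.bodd x,
      eventually_forall_lt (T := k) fun x _ => H.hA x,
      eventually_ge_atTop k, eventually_ge_atTop s, eventually_gt_atTop (Nat.pair e z)]
      with t q1 q2 q3 q4 q5 q6 q7 q8
    refine H.spec.ct_ne t e z q8 ?_ ?_ ⟨k, q6, q3, ?_⟩
    · intro z' hz'
      obtain ⟨s', hs'⟩ := not_not.1 (hmin z' hz')
      refine ⟨⟨s', (q1 z' (by omega) s').2 hs'⟩, fun s'' h => ?_⟩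
      rw [gval z' s'' ((q1 z' (by omega) s'').1 h), q2 z' hz']
    · rintro ⟨s', hs'⟩
      exact hz ⟨s', (q1 z (by omega) s').1 hs'⟩
    · rw [res_congr (J_congr q5 q4), U_mono q7 hU]
      simp
  obtain ⟨t, q1, q2⟩ := (ev.and (eventually_ge_atTop T')).exists
  exact q1 (hT' t q2 z)

theorem part_le {B : ℕ → Bool} (hX : TLe X B) (hA : TLe A B) (i : Bool) :
    TLe (D.part A i) B := by
  have pa := H.pa
  have ppr := H.ppr
  refine TLe.of_search₂ hX hA (fun ξ σ x => ξ[x]?.bind fun b => cond b
    ((List.range (σ.length + 1)).findSome? fun s =>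
      cond (eqb (res (D.a s) s) (σ.take s)) ((D.pr s x).map fun j => eqb j i) none) (some false))
    (by fun_prop) fun x => ?_
  cases hx : X x with
  | false =>
    have hp : D.part A i x = false := by
      have := H.eq_or x
      rw [hx, eq_comm, Bool.or_eq_false_iff] at this
      cases i
      · exact this.1
      · exact this.2
    refine ⟨⟨x + 1, by rw [getElem?_res, if_pos (by omega), hx]; rfl⟩, fun k b hb => ?_⟩
    rw [getElem?_res] at hb
    split_ifs at hb
    · simp only [hx, Option.bind_some, cond_false] at hb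
      rw [hp]; exact (Option.some.inj hb).symm
    · simp at hb
  | true =>
    constructor
    · obtain ⟨s, j, p1, p2⟩ := H.true_pr hx
      refine ⟨max s (x + 1), ?_⟩
      rw [getElem?_res, if_pos (by omega)]
      simp only [hx, Option.bind_some, cond_true]
      rw [List.findSome?_isSome_iff]
      refine ⟨s, by simp, ?_⟩
      rw [take_res A (le_max_left _ _), eqb_true.2 (res_congr p2), cond_true, p1]
      rfl
    · intro k b hb
      rw [getElem?_res] at hb
      split_ifs at hb
      · simp only [hx, Option.bind_some, cond_true] at hb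
        obtain ⟨s, hs, hb⟩ := List.exists_of_findSome?_eq_some hb
        rw [length_res, List.mem_range] at hs
        rw [take_res A (by omega)] at hb
        by_cases heq : res (D.a s) s = res A s
        · rw [eqb_true.2 heq, cond_true] at hb
          obtain ⟨j, p1, rfl⟩ := Option.map_eq_some_iff.1 hb
          obtain ⟨t, q1, q2⟩ := ((H.cur_lim_true p1 (res_eq_iff.1 heq)).and
            (H.part_lim i x)).exists
          rw [← q2, q1]
          cases i <;> cases j <;> rfl
        · rw [eqb_false.2 heq, cond_false] at hb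
          exact absurd hb (by simp)
      · simp at hb

theorem le_of_parts {C : ℕ → Bool} (h0 : TLe (D.part A false) C) (h1 : TLe (D.part A true) C) :
    TLe X C := by
  refine TLe.of_search₂ h0 h1 (fun ξ σ x => ξ[x]?.bind fun b => σ[x]?.map fun b' => b || b')
    (by fun_prop) fun x => ⟨⟨x + 1, by simp⟩, fun k b hb => ?_⟩
  rw [getElem?_res, getElem?_res] at hb
  split_ifs at hb
  · rw [H.eq_or x]
    exact (Option.some.inj hb).symm
  · simp at hb

end Hyp

end Data

end Pool.Agent.P.MP_535d4d_lc
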